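import Pool.Agent.DSA.Defs

/-! DSA / Sm: the second moment over all characters.

PROOF. `cos_ang`: `|ψ s| = 1` (`AddChar.norm_apply`), so `ψ s = exp(2πi ang ψ s)` and `ψ (k • s) = (ψ s)^k`
(`AddChar.map_nsmul_eq_pow`); take real parts. `bad_count`: for every `ψ` put
`Z ψ = 2 ∑_{s ∈ S} ∑_{k ≤ H} t k cos(2πk ang ψ s) = 2 ∑_k t k ∑_{s ∈ S} ψ(k s)` (the sum over `s ∈ S` is real because
`S = -S` and `ψ (-x) = conj (ψ x)`). For `ψ ∈ Bad`, `Z ψ ≤ - |S| t 0`, so `(Z ψ)² ≥ (|S| t 0)²`. And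
`∑_ψ (Z ψ)² = ∑_ψ Z ψ conj(Z ψ) = 4 ∑_{k,l} t k t l ∑_{s,s'} ∑_ψ ψ(k s - l s') = 4 |G| ∑_{k,l} t k t l rp S k l ≤
4 |G| En S H |t|` (`AddChar.sum_apply_eq_ite`). -/

set_option autoImplicit false

open Finset

namespace DSA

variable {G : Type*} [AddCommGroup G] [Fintype G]

private theorem sm_exp (ψ : AddChar G ℂ) (s : G) :
    ψ s = Complex.exp (((2 * Real.pi * ang ψ s : ℝ) : ℂ) * Complex.I) := by
  have h1 : ‖ψ s‖ = 1 := ψ.norm_apply s
  have h2 : (2 * Real.pi * ang ψ s : ℝ) = Complex.arg (ψ s) := by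
    unfold ang
    have := Real.pi_ne_zero
    field_simp
  rw [h2]
  have h3 := Complex.norm_mul_exp_arg_mul_I (ψ s)
  rw [h1, Complex.ofReal_one, one_mul] at h3
  exact h3.symm

theorem cos_ang (ψ : AddChar G ℂ) (s : G) (k : ℕ) :
    Real.cos (2 * Real.pi * k * ang ψ s) = (ψ (k • s)).re := by
  rw [AddChar.map_nsmul_eq_pow, sm_exp ψ s, ← Complex.exp_nat_mul]
  have h : (k : ℂ) * (((2 * Real.pi * ang ψ s : ℝ) : ℂ) * Complex.I)
      = ((2 * Real.pi * k * ang ψ s : ℝ) : ℂ) * Complex.I := by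
    push_cast
    ring
  rw [h, Complex.exp_ofReal_mul_I_re]

theorem nm_le (ψ : AddChar G ℂ) (s : G) : nm ψ s ≤ 1 / 2 := by
  unfold nm ang
  have h := Complex.abs_arg_le_pi (ψ s)
  have hp := Real.pi_pos
  rw [abs_div, abs_of_pos (by positivity : (0 : ℝ) < 2 * Real.pi), div_le_iff₀ (by positivity)]
  linarith

theorem nm_neg (ψ : AddChar G ℂ) (s : G) : nm ψ (-s) = nm ψ s := by
  unfold nm ang
  have h1 : ψ (-s) = (ψ s)⁻¹ := AddChar.map_neg_eq_inv ψ s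
  rw [h1, abs_div, abs_div, Complex.abs_arg_inv]

private theorem sm_conj (ψ : AddChar G ℂ) (s : G) : (starRingEnd ℂ) (ψ s) = ψ (-s) := by
  rw [AddChar.map_neg_eq_inv, ← Complex.inv_eq_conj (ψ.norm_apply s)]

open Classical in
private theorem sm_rp (S : Finset G) (k l : ℕ) :
    (rp S k l : ℝ) = ∑ s ∈ S, ∑ s' ∈ S, (if k • s - l • s' = 0 then (1 : ℝ) else 0) := by
  unfold rp
  rw [card_filter, Finset.sum_product]
  push_cast
  refine Finset.sum_congr rfl fun s _ => Finset.sum_congr rfl fun s' _ => ?_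
  simp only [sub_eq_zero]

private noncomputable def smW (S : Finset G) (H : ℕ) (t : ℕ → ℝ) (ψ : AddChar G ℂ) : ℂ :=
  ∑ k ∈ Icc 1 H, ∑ s ∈ S, (t k : ℂ) * ψ (k • s)

private theorem smW_re (S : Finset G) (H : ℕ) (t : ℕ → ℝ) (ψ : AddChar G ℂ) :
    ∑ s ∈ S, (t 0 + 2 * ∑ k ∈ Icc 1 H, t k * Real.cos (2 * Real.pi * k * ang ψ s))
      = S.card * t 0 + 2 * (smW S H t ψ).re := by
  rw [Finset.sum_add_distrib, Finset.sum_const, nsmul_eq_mul, ← Finset.mul_sum, Finset.sum_comm]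
  congr 2
  unfold smW
  rw [Complex.re_sum]
  refine Finset.sum_congr rfl fun k _ => ?_
  rw [Complex.re_sum]
  refine Finset.sum_congr rfl fun s _ => ?_
  rw [cos_ang, Complex.re_ofReal_mul]

open Classical in
private theorem smW_sq (S : Finset G) (H : ℕ) (t : ℕ → ℝ) :
    ∑ ψ : AddChar G ℂ, Complex.normSq (smW S H t ψ)
      = Fintype.card G * ∑ k ∈ Icc 1 H, ∑ l ∈ Icc 1 H, t k * t l * (rp S k l : ℝ) := by
  have key : ((∑ ψ : AddChar G ℂ, Complex.normSq (smW S H t ψ) : ℝ) : ℂ)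
      = ((Fintype.card G * ∑ k ∈ Icc 1 H, ∑ l ∈ Icc 1 H, t k * t l * (rp S k l : ℝ) : ℝ) : ℂ) := by
    push_cast
    have h1 : ∀ ψ : AddChar G ℂ, (Complex.normSq (smW S H t ψ) : ℂ)
        = ∑ k ∈ Icc 1 H, ∑ s ∈ S, ∑ l ∈ Icc 1 H, ∑ s' ∈ S,
          (t k : ℂ) * t l * ψ (k • s - l • s') := by
      intro ψ
      rw [← Complex.mul_conj]
      unfold smW
      rw [map_sum, Finset.sum_mul]
      refine Finset.sum_congr rfl fun k _ => ?_
      rw [Finset.sum_mul]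
      refine Finset.sum_congr rfl fun s _ => ?_
      rw [Finset.mul_sum]
      refine Finset.sum_congr rfl fun l _ => ?_
      rw [map_sum, Finset.mul_sum]
      refine Finset.sum_congr rfl fun s' _ => ?_
      rw [map_mul, Complex.conj_ofReal, sm_conj, sub_eq_add_neg, AddChar.map_add_eq_mul]
      ring
    rw [Finset.sum_congr rfl fun ψ _ => h1 ψ]
    rw [Finset.sum_comm, Finset.mul_sum]
    refine Finset.sum_congr rfl fun k _ => ?_
    have h2 : ∀ l : ℕ, ((rp S k l : ℕ) : ℂ)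
        = ∑ s ∈ S, ∑ s' ∈ S, (if k • s - l • s' = 0 then (1 : ℂ) else 0) := by
      intro l
      have := congrArg (fun r : ℝ => (r : ℂ)) (sm_rp S k l)
      push_cast at this
      rw [this]
      refine Finset.sum_congr rfl fun s _ => Finset.sum_congr rfl fun s' _ => ?_
      split_ifs <;> simp
    have h3 : ∑ ψ : AddChar G ℂ, ∑ s ∈ S, ∑ l ∈ Icc 1 H, ∑ s' ∈ S,
          (t k : ℂ) * t l * ψ (k • s - l • s')
        = ∑ l ∈ Icc 1 H, ∑ s ∈ S, ∑ s' ∈ S, ∑ ψ : AddChar G ℂ,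
          (t k : ℂ) * t l * ψ (k • s - l • s') := by
      have h4 : ∀ ψ : AddChar G ℂ, ∑ s ∈ S, ∑ l ∈ Icc 1 H, ∑ s' ∈ S,
          (t k : ℂ) * t l * ψ (k • s - l • s')
          = ∑ l ∈ Icc 1 H, ∑ s ∈ S, ∑ s' ∈ S, (t k : ℂ) * t l * ψ (k • s - l • s') :=
        fun ψ => Finset.sum_comm
      rw [Finset.sum_congr rfl fun ψ _ => h4 ψ, Finset.sum_comm]
      refine Finset.sum_congr rfl fun l _ => ?_
      rw [Finset.sum_comm]
      refine Finset.sum_congr rfl fun s _ => ?_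
      rw [Finset.sum_comm]
    rw [h3, Finset.mul_sum]
    refine Finset.sum_congr rfl fun l _ => ?_
    rw [h2 l, Finset.mul_sum, Finset.mul_sum]
    refine Finset.sum_congr rfl fun s _ => ?_
    rw [Finset.mul_sum, Finset.mul_sum]
    refine Finset.sum_congr rfl fun s' _ => ?_
    rw [← Finset.mul_sum, AddChar.sum_apply_eq_ite]
    split_ifs <;> simp
    ring
  exact_mod_cast key

theorem bad_count (S : Finset G) (hS : ∀ s ∈ S, -s ∈ S) (H : ℕ) (t : ℕ → ℝ) (ht0 : 0 ≤ t 0)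
    (Bad : Finset (AddChar G ℂ))
    (hbad : ∀ ψ ∈ Bad, ∑ s ∈ S, (t 0 + 2 * ∑ k ∈ Icc 1 H, t k * Real.cos (2 * Real.pi * k * ang ψ s)) ≤ 0) :
    (Bad.card : ℝ) * (S.card * t 0) ^ 2 ≤ 4 * En S H (fun k => |t k|) * Fintype.card G := by
  classical
  have h1 : ∀ ψ ∈ Bad, (S.card * t 0) ^ 2 ≤ 4 * Complex.normSq (smW S H t ψ) := by
    intro ψ hψ
    have h := hbad ψ hψ
    rw [smW_re] at h
    have h0 : 0 ≤ (S.card : ℝ) * t 0 := by positivity
    have h2 : (S.card * t 0) ^ 2 ≤ (2 * (smW S H t ψ).re) ^ 2 := by nlinarith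
    have h3 : (smW S H t ψ).re * (smW S H t ψ).re ≤ Complex.normSq (smW S H t ψ) :=
      Complex.re_sq_le_normSq _
    nlinarith
  calc (Bad.card : ℝ) * (S.card * t 0) ^ 2 = ∑ ψ ∈ Bad, (S.card * t 0) ^ 2 := by
        rw [Finset.sum_const, nsmul_eq_mul]
    _ ≤ ∑ ψ ∈ Bad, 4 * Complex.normSq (smW S H t ψ) := Finset.sum_le_sum h1
    _ ≤ ∑ ψ : AddChar G ℂ, 4 * Complex.normSq (smW S H t ψ) :=
        Finset.sum_le_sum_of_subset_of_nonneg (Finset.subset_univ _)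
          (fun ψ _ _ => by have := Complex.normSq_nonneg (smW S H t ψ); positivity)
    _ = 4 * (Fintype.card G * ∑ k ∈ Icc 1 H, ∑ l ∈ Icc 1 H, t k * t l * (rp S k l : ℝ)) := by
        rw [← Finset.mul_sum, smW_sq]
    _ ≤ 4 * (Fintype.card G * ∑ k ∈ Icc 1 H, ∑ l ∈ Icc 1 H, |t k| * |t l| * (rp S k l : ℝ)) := by
        refine mul_le_mul_of_nonneg_left (mul_le_mul_of_nonneg_left ?_ (Nat.cast_nonneg _)) (by norm_num)
        refine Finset.sum_le_sum fun k _ => Finset.sum_le_sum fun l _ => ?_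
        refine mul_le_mul_of_nonneg_right ?_ (Nat.cast_nonneg _)
        rw [← abs_mul]
        exact le_abs_self _
    _ = 4 * En S H (fun k => |t k|) * Fintype.card G := by
        unfold En
        ring

end DSA
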