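import Pool.Agent.DSA.Fe

/-! DSA / Wi: a trigonometric polynomial which is `≤ 0` off a window.

PROOF. `w = b - a`, `u = a + w/4`, `v = b - w/4` (so `v - u = w/2`), `κ = 4/((H+1) w)`,
`t 0 = w - κ`, `t k = (1 - k/(H+1)) * (2 * ∫ c in u..v, cos (2πkc))` for `1 ≤ k ≤ H`, `t k = 0` for `k > H`.
`κ ≤ w/2` by `hH`. `|2 ∫ cos| ≤ 2 (v - u) = w`, and `= |2 (sin(2πkv) - sin(2πku))/(2πk)| ≤ 2/(πk) ≤ 1/k`.
Identity: `∫ c in u..v, (fej H (θ-c) + fej H (θ+c)) = w + 2 ∑_{k=1}^H t k cos(2πkθ)` since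
`cos(2πk(θ-c)) + cos(2πk(θ+c)) = 2 cos(2πkθ) cos(2πkc)`. For `|θ| ≤ 1/2`, `|θ| < a` or `|θ| > b`, and `c ∈ [u,v]`, both
`θ - c` and `θ + c` have distance `≥ w/4` from every integer (integer 0: `||θ| - c| ≥ w/4` and `c ≥ w/4`; other integers:
`|θ ± c| ≤ 1/2 + 1/4`), so by `fej_le` the integrand is at most `2/((H+1) * 4 * (w/4)²) = 8/((H+1) w²)` and the integral
is at most `(w/2) * 8/((H+1) w²) = κ`. -/

set_option autoImplicit false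

open Finset

namespace DSA

theorem exists_window (a b : ℝ) (ha : 0 < a) (hab : a < b) (hb : b ≤ 1 / 4) (H : ℕ)
    (hH : 8 ≤ (H + 1) * (b - a) ^ 2) :
    ∃ t : ℕ → ℝ, (b - a) / 2 ≤ t 0 ∧ (∀ k, 1 ≤ k → |t k| ≤ b - a) ∧ (∀ k : ℕ, 1 ≤ k → |t k| ≤ 1 / k) ∧
      (∀ k, H < k → t k = 0) ∧
      ∀ θ : ℝ, |θ| ≤ 1 / 2 → (|θ| < a ∨ b < |θ|) →
        t 0 + 2 * ∑ k ∈ Icc 1 H, t k * Real.cos (2 * Real.pi * k * θ) ≤ 0 := by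
  sorry

end DSA
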