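import Pool.Agent.DSA.It
import Pool.Agent.DSA.Wi
import Pool.Agent.DSA.Sm

/-! DSA / Bd: few characters miss a window.

PROOF. `w = b - a ≤ 1/4`. Take `t` from `exists_window`. For `ψ ∈ Bad` every `s ∈ S` has `nm ψ s < a` or `> b`
(and `≤ 1/2`, `nm_le`), so each summand in `bad_count` is `≤ 0`. Hence with `a' k = |t k|` for `k ≥ 1`, and `a' 0 = 0`
(`En` only uses `k ≥ 1`; `Finset.sum_congr`), `|Bad| (|S| w/2)² ≤ 4 |G| En S H a'` and by `En_le`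
`En S H a' ≤ C0 |S|^{1+1/2^j} H^{jδ} ∑_{k ≤ H} t k²`, and `∑_{1 ≤ k ≤ H} t k² ≤ ∑ min(w,1/k)² ≤ 3 w`
(the `k ≤ 1/w` contribute at most `(1/w) w²`, the others at most `∑_{k > 1/w} 1/k² ≤ 1/(1/w - 1) ≤ (4/3) w`,
telescoping `1/k² ≤ 1/(k-1) - 1/k`). So `|Bad| |S|² w²/4 ≤ 12 C0 |S|^{1+1/2^j} H^{jδ} w |G|`. Divide by `|S| w / 4 · |S|^{1/2^j}`…
(`|S| > 0`: `Real.rpow_add`, `Real.rpow_sub`). -/

set_option autoImplicit false

open Finset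

namespace DSA

variable {G : Type*} [AddCommGroup G] [Fintype G]

private theorem bd_small (w : ℝ) (t : ℕ → ℝ) (h1 : ∀ k, 1 ≤ k → |t k| ≤ w) (H : ℕ) :
    ∑ k ∈ Icc 1 H, |t k| ^ 2 ≤ H * w ^ 2 := by
  have h : ∀ k ∈ Icc 1 H, |t k| ^ 2 ≤ w ^ 2 := by
    intro k hk
    rw [mem_Icc] at hk
    exact pow_le_pow_left₀ (abs_nonneg _) (h1 k hk.1) 2
  refine (Finset.sum_le_sum h).trans (le_of_eq ?_)
  rw [Finset.sum_const, Nat.card_Icc, nsmul_eq_mul]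
  simp

private theorem bd_large (w : ℝ) (t : ℕ → ℝ) (h1 : ∀ k, 1 ≤ k → |t k| ≤ w)
    (h2 : ∀ k : ℕ, 1 ≤ k → |t k| ≤ 1 / k) (K : ℕ) (hK : 1 ≤ K) (H : ℕ) (hH : K ≤ H) :
    ∑ k ∈ Icc 1 H, |t k| ^ 2 ≤ K * w ^ 2 + (1 / (K : ℝ) - 1 / (H : ℝ)) := by
  induction H, hH using Nat.le_induction with
  | base =>
    have := bd_small w t h1 K
    linarith
  | succ n hn ih =>
    rw [Finset.sum_Icc_succ_top (by omega)]
    have hn0 : (0 : ℝ) < n := by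
      exact_mod_cast (by omega : 0 < n)
    have h3 : |t (n + 1)| ^ 2 ≤ (1 / ((n + 1 : ℕ) : ℝ)) ^ 2 :=
      pow_le_pow_left₀ (abs_nonneg _) (h2 (n + 1) (by omega)) 2
    have h4 : (1 / ((n + 1 : ℕ) : ℝ)) ^ 2 ≤ 1 / (n : ℝ) - 1 / ((n + 1 : ℕ) : ℝ) := by
      push_cast
      rw [div_sub_div _ _ hn0.ne' (by positivity), div_pow, one_pow,
        div_le_div_iff₀ (by positivity) (by positivity)]
      nlinarith
    linarith

private theorem bd_sum (w : ℝ) (hw : 0 < w) (hw4 : w ≤ 1 / 4) (t : ℕ → ℝ)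
    (h1 : ∀ k, 1 ≤ k → |t k| ≤ w) (h2 : ∀ k : ℕ, 1 ≤ k → |t k| ≤ 1 / k) (H : ℕ) :
    ∑ k ∈ Icc 1 H, |t k| ^ 2 ≤ 3 * w := by
  obtain ⟨K, hK⟩ : ∃ K : ℕ, K = ⌊1 / w⌋₊ := ⟨_, rfl⟩
  have hW : (4 : ℝ) ≤ 1 / w := by
    rw [le_div_iff₀ hw]
    linarith
  have hK1 : (K : ℝ) ≤ 1 / w := by
    rw [hK]
    exact Nat.floor_le (by positivity)
  have hK2 : 1 / w < K + 1 := by
    rw [hK]
    exact Nat.lt_floor_add_one _
  have hK3 : (3 : ℝ) < K := by linarith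
  have hK0 : (0 : ℝ) < K := by linarith
  have hKw : (K : ℝ) * w ^ 2 ≤ w := by
    have : (K : ℝ) * w ≤ 1 := by
      rw [le_div_iff₀ hw] at hK1
      exact hK1
    nlinarith
  have hinv : 1 / (K : ℝ) ≤ 2 * w := by
    rw [div_le_iff₀ hK0]
    have h3 : 1 / w ≤ 2 * K := by linarith
    rw [div_le_iff₀ hw] at h3
    linarith
  rcases le_total K H with h | h
  · have h3 := bd_large w t h1 h2 K (by
      have : (0 : ℝ) < K := hK0
      exact_mod_cast this) H h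
    have h4 : (0 : ℝ) ≤ 1 / (H : ℝ) := by positivity
    linarith
  · have h3 := bd_small w t h1 H
    have h4 : (H : ℝ) * w ^ 2 ≤ K * w ^ 2 := by
      apply mul_le_mul_of_nonneg_right _ (sq_nonneg _)
      exact_mod_cast h
    linarith

theorem bad_window (C0 δ : ℝ) (hC0 : 1 ≤ C0) (hδ : 0 ≤ δ)
    (hd : ∀ n : ℕ, 1 ≤ n → (n.divisors.card : ℝ) ≤ C0 * (n : ℝ) ^ δ) (j : ℕ)
    (S : Finset G) (hne : S.Nonempty) (h0 : (0 : G) ∉ S) (hS : ∀ s ∈ S, -s ∈ S)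
    (a b : ℝ) (ha : 0 < a) (hab : a < b) (hb : b ≤ 1 / 4) (H : ℕ) (hH1 : 1 ≤ H)
    (hH : 8 ≤ (H + 1) * (b - a) ^ 2) (hinj : ∀ k ∈ Icc 1 (H ^ 2 ^ j), ∀ x : G, k • x = 0 → x = 0)
    (Bad : Finset (AddChar G ℂ)) (hbad : ∀ ψ ∈ Bad, ∀ s ∈ S, nm ψ s < a ∨ b < nm ψ s) :
    (Bad.card : ℝ) * (b - a) * (S.card : ℝ) ^ (1 - 1 / (2 : ℝ) ^ j) ≤
      48 * C0 * (H : ℝ) ^ (j * δ) * Fintype.card G := by
  obtain ⟨t, ht0, ht1, ht2, ht3, ht4⟩ := exists_window a b ha hab hb H hH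
  obtain ⟨w, hw⟩ : ∃ w, w = b - a := ⟨_, rfl⟩
  rw [← hw] at ht0 ht1 ⊢
  have hw0 : 0 < w := by linarith
  have hw4 : w ≤ 1 / 4 := by linarith
  have hc0 : (0 : ℝ) < S.card := by exact_mod_cast hne.card_pos
  have key := bad_count S hS H t (by linarith) Bad (by
    intro ψ hψ
    apply Finset.sum_nonpos
    intro s hs
    exact ht4 (ang ψ s) (nm_le ψ s) (hbad ψ hψ s hs))
  have hen := En_le C0 δ hC0 hδ hd S h0 j H (fun k => |t k|) hH1 (fun k => abs_nonneg _)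
    (fun k hk => by simp only [ht3 k hk, abs_zero]) hinj
  have hsum := bd_sum w hw0 hw4 t ht1 ht2 H
  obtain ⟨c, hc⟩ : ∃ c : ℝ, c = (S.card : ℝ) := ⟨_, rfl⟩
  rw [← hc] at key hen hc0 ⊢
  obtain ⟨e, he⟩ : ∃ e : ℝ, e = 1 / (2 : ℝ) ^ j := ⟨_, rfl⟩
  rw [← he] at hen ⊢
  obtain ⟨h, hh⟩ : ∃ h : ℝ, h = (H : ℝ) ^ (j * δ) := ⟨_, rfl⟩
  rw [← hh] at hen ⊢
  have hh0 : 0 ≤ h := by rw [hh]; positivity
  have hcp : 0 < c ^ (1 + e) := Real.rpow_pos_of_pos hc0 _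
  have hC : 0 ≤ C0 := by linarith
  have hN : (0 : ℝ) ≤ Fintype.card G := Nat.cast_nonneg _
  have hB : (0 : ℝ) ≤ Bad.card := Nat.cast_nonneg _
  have e1 : En S H (fun k => |t k|) ≤ C0 * c ^ (1 + e) * h * (3 * w) :=
    hen.trans (mul_le_mul_of_nonneg_left hsum (by positivity))
  have e2 : (Bad.card : ℝ) * (c * (w / 2)) ^ 2 ≤ Bad.card * (c * t 0) ^ 2 := by
    apply mul_le_mul_of_nonneg_left _ hB
    apply pow_le_pow_left₀ (by positivity)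
    exact mul_le_mul_of_nonneg_left ht0 hc0.le
  have e3 : 4 * En S H (fun k => |t k|) * Fintype.card G ≤
      4 * (C0 * c ^ (1 + e) * h * (3 * w)) * Fintype.card G := by
    apply mul_le_mul_of_nonneg_right _ hN
    linarith
  have e4 : c ^ 2 = c ^ (1 - e) * c ^ (1 + e) := by
    rw [← Real.rpow_add hc0, ← Real.rpow_natCast]
    congr 1
    push_cast
    ring
  have e5 : (Bad.card * w * c ^ (1 - e)) * (c ^ (1 + e) * w) ≤
      (48 * C0 * h * Fintype.card G) * (c ^ (1 + e) * w) := by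
    have h5 : (Bad.card : ℝ) * (c * (w / 2)) ^ 2 =
        (Bad.card * w * c ^ (1 - e)) * (c ^ (1 + e) * w) / 4 := by
      have : (Bad.card : ℝ) * (c * (w / 2)) ^ 2 = Bad.card * w * c ^ 2 * w / 4 := by ring
      rw [this, e4]
      ring
    have h6 : 4 * (C0 * c ^ (1 + e) * h * (3 * w)) * Fintype.card G =
        (48 * C0 * h * Fintype.card G) * (c ^ (1 + e) * w) / 4 := by ring
    linarith [e2.trans (key.trans e3)]
  exact le_of_mul_le_mul_right e5 (by positivity)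

end DSA
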