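import Pool.Agent.DSA.Sm

/-! DSA / Ch: a chain of elements with superincreasing angles is dissociated.

PROOF. `nm ψ (s i) > ∑_{i' < i} nm ψ (s i') ≥ 0` gives `nm ψ (s i) > 0` and injectivity of `s` on `range J` (the values
`nm ψ (s i)` are strictly increasing). Let `∑ ε_b b = 0` with `ε_b ∈ {-1,0,1}` not all `0`, `B = image`. Put
`x = ∑_{i<J} ε_i ang ψ (s i)`. Applying `ψ`: `∏ ψ(s i)^{ε_i} = 1`, i.e. `exp(2πi x) = 1`, so `x` is an integer. Let `i0`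
be the largest index with `ε_{i0} ≠ 0`: `|x| ≥ nm(s i0) - ∑_{i<i0} nm(s i) > 0` and
`|x| ≤ nm(s i0) + ∑_{i<i0} nm(s i) < 2 nm(s i0) ≤ 1/2 < 1`: contradiction. -/

set_option autoImplicit false

open Finset

namespace DSA

variable {G : Type*} [AddCommGroup G] [Fintype G]

theorem diss_of_chain (ψ : AddChar G ℂ) (J : ℕ) (s : ℕ → G) (h1 : ∀ i < J, nm ψ (s i) ≤ 1 / 4)
    (h2 : ∀ i < J, ∑ i' ∈ range i, nm ψ (s i') < nm ψ (s i)) :
    ∃ B : Finset G, B.card = J ∧ (∀ x ∈ B, ∃ i < J, x = s i) ∧ Pool.Agent.Helper81.Dissoc.Dissociated B := by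
  sorry

end DSA
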