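import Pool.Agent.DSA.Defs

/-! DSA / Cs: Cauchy-Schwarz for the weighted multiplicative energy.

PROOF. `sum_mc`: `∑_{N ≤ H²} (∑_{kl = N} a k a l) g N = ∑_{k,l ≤ H} a k a l g (k l)` (the terms with `k > H` or `l > H`
vanish; every `k, l ∈ [1,H]` has `k l ∈ [1, H²]`). `En_sq_le`: put `f x = ∑_{s ∈ S} ∑_{k,l} a k a l [k s = l x]` for
`x ∈ G`. Then `En S H a = ∑_{x ∈ S} f x`, so `(En)² ≤ |S| ∑_{x ∈ S} (f x)²`, and
`∑_{x ∈ S} (f x)² = ∑_{s,s'} ∑_{k,l,k',l'} a k a l a k' a l' #{x ∈ S : k s = l x, k' s' = l' x}`.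
If `k s = l x` and `k' s' = l' x` then `(k l') s = l l' x = (k' l) s'`, and for given data there is at most one `x`
(`l x = l y` implies `l (x - y) = 0`, so `x = y`). Hence the sum is at most
`∑ a k a l' a k' a l [(k l') s = (k' l) s'] = En S (H*H) (mc a)` by `sum_mc` twice. -/

set_option autoImplicit false

open Finset

namespace DSA

variable {G : Type*} [AddCommGroup G]

theorem sum_mc (H : ℕ) (a : ℕ → ℝ) (hs : ∀ k, H < k → a k = 0) (g : ℕ → ℝ) :
    ∑ n ∈ Icc 1 (H * H), mc a n * g n = ∑ k ∈ Icc 1 H, ∑ l ∈ Icc 1 H, a k * a l * g (k * l) := by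
  rw [← Finset.sum_product']
  rw [← Finset.sum_fiberwise_of_maps_to (s := Icc 1 H ×ˢ Icc 1 H) (t := Icc 1 (H * H))
    (g := fun p : ℕ × ℕ => p.1 * p.2)]
  · apply Finset.sum_congr rfl
    intro n hn
    rw [Finset.mem_Icc] at hn
    unfold mc
    rw [Finset.sum_mul]
    symm
    have hsub : (Icc 1 H ×ˢ Icc 1 H).filter (fun p : ℕ × ℕ => p.1 * p.2 = n) ⊆
        n.divisorsAntidiagonal := by
      intro p hp
      rw [Finset.mem_filter] at hp
      rw [Nat.mem_divisorsAntidiagonal]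
      exact ⟨hp.2, by omega⟩
    rw [← Finset.sum_subset hsub]
    · apply Finset.sum_congr rfl
      intro p hp
      rw [Finset.mem_filter] at hp
      rw [hp.2]
    · intro p hp hnp
      rw [Nat.mem_divisorsAntidiagonal] at hp
      rw [Finset.mem_filter, Finset.mem_product, Finset.mem_Icc, Finset.mem_Icc] at hnp
      have h1 : 1 ≤ p.1 := by
        rcases Nat.eq_zero_or_pos p.1 with h | h
        · exfalso
          rw [h] at hp
          simp at hp
          omega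
        · exact h
      have h2 : 1 ≤ p.2 := by
        rcases Nat.eq_zero_or_pos p.2 with h | h
        · exfalso
          rw [h] at hp
          simp at hp
          omega
        · exact h
      by_cases h3 : p.1 ≤ H
      · by_cases h4 : p.2 ≤ H
        · exact absurd ⟨⟨⟨h1, h3⟩, ⟨h2, h4⟩⟩, hp.1⟩ hnp
        · rw [hs p.2 (by omega)]
          ring
      · rw [hs p.1 (by omega)]
        ring
  · intro p hp
    rw [Finset.mem_product, Finset.mem_Icc, Finset.mem_Icc] at hp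
    rw [Finset.mem_Icc]
    exact ⟨Nat.mul_pos hp.1.1 hp.2.1, Nat.mul_le_mul hp.1.2 hp.2.2⟩

theorem mc_nonneg (a : ℕ → ℝ) (ha : ∀ k, 0 ≤ a k) (n : ℕ) : 0 ≤ mc a n := by
  unfold mc
  exact Finset.sum_nonneg fun p _ => mul_nonneg (ha _) (ha _)

theorem mc_supp (H : ℕ) (a : ℕ → ℝ) (hs : ∀ k, H < k → a k = 0) (n : ℕ) (hn : H * H < n) : mc a n = 0 := by
  unfold mc
  apply Finset.sum_eq_zero
  intro p hp
  rw [Nat.mem_divisorsAntidiagonal] at hp
  by_cases h3 : p.1 ≤ H
  · by_cases h4 : p.2 ≤ H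
    · exfalso
      have := Nat.mul_le_mul h3 h4
      omega
    · rw [hs p.2 (by omega)]
      ring
  · rw [hs p.1 (by omega)]
    ring

open Classical in
private theorem rp_eq (S : Finset G) (k l : ℕ) :
    (rp S k l : ℝ) = ∑ s ∈ S, ∑ x ∈ S, if k • s = l • x then (1 : ℝ) else 0 := by
  unfold rp
  rw [← Finset.sum_product', Finset.card_filter]
  push_cast
  rfl

open Classical in
private theorem cnt_le (S : Finset G) (H : ℕ)
    (hinj : ∀ k ∈ Icc 1 H, ∀ x : G, k • x = 0 → x = 0) (k l k' l' : ℕ) (hl : l ∈ Icc 1 H) (s s' : G) :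
    ∑ x ∈ S, (if k • s = l • x then (1 : ℝ) else 0) * (if k' • s' = l' • x then (1 : ℝ) else 0) ≤
      if (k * l') • s = (k' * l) • s' then (1 : ℝ) else 0 := by
  by_cases hex : ∃ x ∈ S, k • s = l • x ∧ k' • s' = l' • x
  · obtain ⟨y, hy, h1, h2⟩ := hex
    have hcond : (k * l') • s = (k' * l) • s' := by
      rw [mul_comm k l', mul_comm k' l, mul_smul, mul_smul, h1, h2, ← mul_smul, ← mul_smul, mul_comm]
    rw [if_pos hcond]
    rw [Finset.sum_eq_single_of_mem y hy]
    · rw [if_pos h1, if_pos h2]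
      norm_num
    · intro x _ hxy
      rw [if_neg]
      · ring
      · intro h
        apply hxy
        have h3 : l • (x - y) = 0 := by
          rw [smul_sub, ← h, ← h1, sub_self]
        exact sub_eq_zero.mp (hinj l hl _ h3)
  · have hz : ∑ x ∈ S, (if k • s = l • x then (1 : ℝ) else 0) *
        (if k' • s' = l' • x then (1 : ℝ) else 0) = 0 := by
      apply Finset.sum_eq_zero
      intro x hx
      by_cases h1 : k • s = l • x
      · rw [if_neg (fun h2 => hex ⟨x, hx, h1, h2⟩)]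
        ring
      · rw [if_neg h1]
        ring
    rw [hz]
    split_ifs <;> norm_num

open Classical in
theorem En_sq_le (S : Finset G) (H : ℕ) (a : ℕ → ℝ) (ha : ∀ k, 0 ≤ a k) (hs : ∀ k, H < k → a k = 0)
    (hinj : ∀ k ∈ Icc 1 H, ∀ x : G, k • x = 0 → x = 0) :
    En S H a ^ 2 ≤ S.card * En S (H * H) (mc a) := by
  -- the function `F x j`
  set J : Finset ((ℕ × ℕ) × G) := (Icc 1 H ×ˢ Icc 1 H) ×ˢ S with hJ
  set F : G → (ℕ × ℕ) × G → ℝ := fun x j =>
    a j.1.1 * a j.1.2 * (if j.1.1 • j.2 = j.1.2 • x then (1 : ℝ) else 0) with hF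
  have h1 : En S H a = ∑ x ∈ S, ∑ j ∈ J, F x j := by
    unfold En
    refine Eq.trans ?_ Finset.sum_comm
    rw [hJ, Finset.sum_product]
    rw [Finset.sum_product]
    apply Finset.sum_congr rfl
    intro k _
    apply Finset.sum_congr rfl
    intro l _
    rw [rp_eq, Finset.mul_sum]
    apply Finset.sum_congr rfl
    intro s _
    rw [Finset.mul_sum]
  have h2 : En S (H * H) (mc a) = ∑ j ∈ J, ∑ j' ∈ J,
      a j.1.1 * a j.1.2 * (a j'.1.1 * a j'.1.2) *
        (if (j.1.1 * j'.1.2) • j.2 = (j'.1.1 * j.1.2) • j'.2 then (1 : ℝ) else 0) := by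
    have e1 : En S (H * H) (mc a) = ∑ k ∈ Icc 1 H, ∑ l' ∈ Icc 1 H, a k * a l' *
        ∑ k' ∈ Icc 1 H, ∑ l ∈ Icc 1 H, a k' * a l * (rp S (k * l') (k' * l) : ℝ) := by
      unfold En
      rw [← sum_mc H a hs (fun m => ∑ k' ∈ Icc 1 H, ∑ l ∈ Icc 1 H, a k' * a l * (rp S m (k' * l) : ℝ))]
      apply Finset.sum_congr rfl
      intro m _
      rw [← sum_mc H a hs (fun n => (rp S m n : ℝ)), Finset.mul_sum]
      apply Finset.sum_congr rfl
      intro n _
      ring
    rw [e1]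
    have e2 : ∀ k l' : ℕ, a k * a l' * ∑ k' ∈ Icc 1 H, ∑ l ∈ Icc 1 H,
        a k' * a l * (rp S (k * l') (k' * l) : ℝ) = ∑ l ∈ Icc 1 H, ∑ k' ∈ Icc 1 H, ∑ s ∈ S, ∑ s' ∈ S,
          a k * a l * (a k' * a l') * (if (k * l') • s = (k' * l) • s' then (1 : ℝ) else 0) := by
      intro k l'
      rw [Finset.sum_comm, Finset.mul_sum]
      apply Finset.sum_congr rfl
      intro l _
      rw [Finset.mul_sum]
      apply Finset.sum_congr rfl
      intro k' _
      rw [rp_eq, Finset.mul_sum, Finset.mul_sum]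
      apply Finset.sum_congr rfl
      intro s _
      rw [Finset.mul_sum, Finset.mul_sum]
      apply Finset.sum_congr rfl
      intro s' _
      ring
    rw [hJ, Finset.sum_product, Finset.sum_product]
    apply Finset.sum_congr rfl
    intro k _
    rw [Finset.sum_congr rfl (fun l' _ => e2 k l'), Finset.sum_comm]
    apply Finset.sum_congr rfl
    intro l _
    -- goal: `∑ l', ∑ k', ∑ s, ∑ s', .. = ∑ s, ∑ j', ..`
    have e3 : ∀ s : G, ∑ j' ∈ (Icc 1 H ×ˢ Icc 1 H) ×ˢ S, a k * a l * (a j'.1.1 * a j'.1.2) *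
        (if (k * j'.1.2) • s = (j'.1.1 * l) • j'.2 then (1 : ℝ) else 0) =
        ∑ l' ∈ Icc 1 H, ∑ k' ∈ Icc 1 H, ∑ s' ∈ S, a k * a l * (a k' * a l') *
          (if (k * l') • s = (k' * l) • s' then (1 : ℝ) else 0) := by
      intro s
      rw [Finset.sum_product, Finset.sum_product, Finset.sum_comm]
    rw [Finset.sum_congr rfl (fun s _ => e3 s)]
    refine Eq.trans ?_ Finset.sum_comm
    apply Finset.sum_congr rfl
    intro l' _
    exact Finset.sum_comm
  have h3 : ∑ x ∈ S, (∑ j ∈ J, F x j) ^ 2 ≤ En S (H * H) (mc a) := by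
    rw [h2]
    have e4 : ∑ x ∈ S, (∑ j ∈ J, F x j) ^ 2 = ∑ j ∈ J, ∑ j' ∈ J, ∑ x ∈ S, F x j * F x j' := by
      have : ∀ x ∈ S, (∑ j ∈ J, F x j) ^ 2 = ∑ j ∈ J, ∑ j' ∈ J, F x j * F x j' := by
        intro x _
        rw [sq, Finset.sum_mul_sum]
      rw [Finset.sum_congr rfl this, Finset.sum_comm]
      apply Finset.sum_congr rfl
      intro j _
      rw [Finset.sum_comm]
    rw [e4]
    apply Finset.sum_le_sum
    intro j hj
    apply Finset.sum_le_sum
    intro j' _
    have hl : j.1.2 ∈ Icc 1 H := by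
      rw [hJ, Finset.mem_product, Finset.mem_product] at hj
      exact hj.1.2
    have e5 : ∑ x ∈ S, F x j * F x j' = a j.1.1 * a j.1.2 * (a j'.1.1 * a j'.1.2) *
        ∑ x ∈ S, (if j.1.1 • j.2 = j.1.2 • x then (1 : ℝ) else 0) *
          (if j'.1.1 • j'.2 = j'.1.2 • x then (1 : ℝ) else 0) := by
      rw [Finset.mul_sum]
      apply Finset.sum_congr rfl
      intro x _
      simp only [hF]
      ring
    rw [e5]
    apply mul_le_mul_of_nonneg_left (cnt_le S H hinj _ _ _ _ hl _ _)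
    exact mul_nonneg (mul_nonneg (ha _) (ha _)) (mul_nonneg (ha _) (ha _))
  calc En S H a ^ 2 = (∑ x ∈ S, ∑ j ∈ J, F x j) ^ 2 := by rw [h1]
    _ ≤ S.card * ∑ x ∈ S, (∑ j ∈ J, F x j) ^ 2 := sq_sum_le_card_mul_sum_sq
    _ ≤ S.card * En S (H * H) (mc a) := mul_le_mul_of_nonneg_left h3 (Nat.cast_nonneg _)

end DSA
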