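import Pool.Agent.Helper8.DivBound

/-! DSA / Db: the divisor bound `d(n) ≤ C n^δ`.

PROOF. `d(n)/n^δ = ∏_{p ∣ n} (e+1)/p^{δ e}`, `e = v_p(n)` (multiplicativity: `Nat.Coprime.card_divisors_mul` or
`Nat.card_divisors`). For `p ≥ 2^{1/δ}` the factor is `≤ (e+1)/2^e ≤ 1`; for `p < P := 2^{1/δ}` it is at most
`(e+1)/2^{δ e} ≤ K` with `K = 1 + 1/(δ log 2)` or any bound, e.g. from `2^{δ e} = exp(δ e log 2) ≥ 1 + δ e log 2`,
so `(e+1)/2^{δ e} ≤ max(1, 1/(δ log 2)) + 1`. Take `C = K^P`. (Induction `Nat.recOnPosPrimePosCoprime` or a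
`Finset.prod` argument.) -/

set_option autoImplicit false

namespace DSA

theorem divisor_bound (δ : ℝ) (hδ : 0 < δ) :
    ∃ C : ℝ, 1 ≤ C ∧ ∀ n : ℕ, 1 ≤ n → (n.divisors.card : ℝ) ≤ C * (n : ℝ) ^ δ :=
  Pool.Agent.Helper8.ArtinLS.divisor_bound δ hδ

end DSA
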