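import Pool.Agent.Helper81.Dissoc.Basic

/-!
# Dissociated subsets of arbitrary sets: definitions

`En S H a` is the weighted multiplicative energy of `S`, `mc a` the multiplicative (Dirichlet)
square of `a`, `ang ψ s` the angle (in turns) of the character value `ψ s`, `nm` its absolute
value, and `fej H` the Fejer kernel.
-/

set_option autoImplicit false

open Finset

namespace DSA

variable {G : Type*} [AddCommGroup G]

open Classical in
/-- the number of pairs `(s, t)` of elements of `S` with `k s = l t`. -/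
noncomputable def rp (S : Finset G) (k l : ℕ) : ℕ :=
  ((S ×ˢ S).filter fun p => k • p.1 = l • p.2).card

/-- weighted multiplicative energy. -/
noncomputable def En (S : Finset G) (H : ℕ) (a : ℕ → ℝ) : ℝ :=
  ∑ k ∈ Icc 1 H, ∑ l ∈ Icc 1 H, a k * a l * (rp S k l : ℝ)

/-- Dirichlet square. -/
noncomputable def mc (a : ℕ → ℝ) (n : ℕ) : ℝ :=
  ∑ p ∈ n.divisorsAntidiagonal, a p.1 * a p.2

/-- angle in turns, in `(-1/2, 1/2]`. -/
noncomputable def ang (ψ : AddChar G ℂ) (s : G) : ℝ := Complex.arg (ψ s) / (2 * Real.pi)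

/-- absolute value of the angle. -/
noncomputable def nm (ψ : AddChar G ℂ) (s : G) : ℝ := |ang ψ s|

/-- the Fejer kernel. -/
noncomputable def fej (H : ℕ) (x : ℝ) : ℝ :=
  1 + 2 * ∑ k ∈ Icc 1 H, (1 - (k : ℝ) / (H + 1)) * Real.cos (2 * Real.pi * k * x)

end DSA
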