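import Pool.Agent.DSA.Cs

/-! DSA / Dv: mean square of the Dirichlet square.

PROOF. `(mc a n)² ≤ (number of divisors of n) * ∑_{kl = n} (a k a l)²` (Cauchy-Schwarz,
`Nat.card_divisorsAntidiagonal` or `Nat.sum_divisorsAntidiagonal`), then sum over `n ≤ H²`:
`∑_n ∑_{kl = n} (a k)² (a l)² = (∑_k (a k)²)²` by `sum_mc` for the function `k ↦ (a k)²` (with `g = 1`). -/

set_option autoImplicit false

open Finset

namespace DSA

private theorem mc_sq_le (a : ℕ → ℝ) (n : ℕ) :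
    mc a n ^ 2 ≤ (n.divisors.card : ℝ) * mc (fun k => a k ^ 2) n := by
  have hcard : (n.divisorsAntidiagonal.card : ℝ) = (n.divisors.card : ℝ) := by
    rw [← Nat.map_div_right_divisors, Finset.card_map]
  unfold mc
  have h := sq_sum_le_card_mul_sum_sq (s := n.divisorsAntidiagonal) (f := fun p => a p.1 * a p.2)
  rw [hcard] at h
  refine h.trans (le_of_eq ?_)
  congr 1
  refine Finset.sum_congr rfl fun p _ => ?_
  ring

theorem sum_mc_sq_le (H : ℕ) (a : ℕ → ℝ) (hs : ∀ k, H < k → a k = 0) (D : ℝ)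
    (hD : ∀ n ∈ Icc 1 (H * H), (n.divisors.card : ℝ) ≤ D) :
    ∑ n ∈ Icc 1 (H * H), mc a n ^ 2 ≤ D * (∑ n ∈ Icc 1 H, a n ^ 2) ^ 2 := by
  have h1 := sum_mc H (fun k => a k ^ 2) (fun k hk => by simp [hs k hk]) (fun _ => 1)
  have hnn : ∀ n, 0 ≤ mc (fun k => a k ^ 2) n := fun n =>
    mc_nonneg _ (fun k => sq_nonneg _) n
  calc ∑ n ∈ Icc 1 (H * H), mc a n ^ 2
      ≤ ∑ n ∈ Icc 1 (H * H), D * mc (fun k => a k ^ 2) n :=
        Finset.sum_le_sum fun n hn => (mc_sq_le a n).trans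
          (mul_le_mul_of_nonneg_right (hD n hn) (hnn n))
    _ = D * ∑ n ∈ Icc 1 (H * H), mc (fun k => a k ^ 2) n * 1 := by
        rw [Finset.mul_sum]; simp
    _ = D * (∑ n ∈ Icc 1 H, a n ^ 2) ^ 2 := by
        rw [h1, sq (∑ n ∈ Icc 1 H, a n ^ 2), Finset.sum_mul_sum]
        simp

end DSA
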