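import Pool.Agent.DSA.Defs

/-! DSA / Fe: the Fejer kernel is nonnegative and small away from the integers.

PROOF. `(H+1) fej H x = |∑_{j=0}^{H} e(jx)|²` (expand the square: the number of pairs `(i,j)`, `0 ≤ i, j ≤ H`, with
`i - j = ± k` is `H + 1 - k`), so it is `≥ 0`; and `|∑_{j ≤ H} e(jx)| * |e(x) - 1| = |e((H+1)x) - 1| ≤ 2`,
`|e(x) - 1| = 2 |sin (π x)| ≥ 4 d` when the distance of `x` to every integer is `≥ d` (reduce `x` modulo 1 to
`[-1/2, 1/2]`, `|sin (π y)| ≥ 2 |y|` there: `Real.mul_le_sin` / `Real.mul_abs_le_abs_sin`). Hence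
`(H+1) fej ≤ (2/(4d))² = 1/(4 d²)`. -/

set_option autoImplicit false

open Finset

namespace DSA

private theorem fe_scale (H : ℕ) (x : ℝ) : ((H : ℝ) + 1) * fej H x =
    ((H : ℝ) + 1) + 2 * ∑ k ∈ Icc 1 H, ((H : ℝ) + 1 - k) * Real.cos (2 * Real.pi * k * x) := by
  unfold fej
  have hH : ((H : ℝ) + 1) ≠ 0 := by positivity
  rw [mul_add, mul_one, ← mul_assoc, mul_comm ((H : ℝ) + 1) 2, mul_assoc, mul_sum]
  congr 2
  apply sum_congr rfl
  intro k _
  rw [← mul_assoc]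
  congr 1
  field_simp

private theorem fe_dir (x : ℝ) (n : ℕ) :
    (1 + 2 * ∑ k ∈ Icc 1 n, Real.cos (2 * Real.pi * k * x)) * Real.sin (Real.pi * x) =
      Real.sin ((2 * (n : ℝ) + 1) * Real.pi * x) := by
  induction n with
  | zero =>
    simp
  | succ n ih =>
    rw [sum_Icc_succ_top (by omega)]
    have e1 : (1 + 2 * (∑ k ∈ Icc 1 n, Real.cos (2 * Real.pi * k * x) +
        Real.cos (2 * Real.pi * ((n + 1 : ℕ) : ℝ) * x))) * Real.sin (Real.pi * x) =
        (1 + 2 * ∑ k ∈ Icc 1 n, Real.cos (2 * Real.pi * k * x)) * Real.sin (Real.pi * x) +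
          2 * Real.cos (2 * Real.pi * ((n + 1 : ℕ) : ℝ) * x) * Real.sin (Real.pi * x) := by ring
    rw [e1, ih]
    push_cast
    have e2 : (2 * ((n : ℝ) + 1) + 1) * Real.pi * x = 2 * Real.pi * ((n : ℝ) + 1) * x + Real.pi * x := by ring
    have e3 : (2 * (n : ℝ) + 1) * Real.pi * x = 2 * Real.pi * ((n : ℝ) + 1) * x - Real.pi * x := by ring
    rw [e2, e3, Real.sin_add, Real.sin_sub]
    ring

private theorem fe_key (x : ℝ) (H : ℕ) :
    ((H : ℝ) + 1) * fej H x * Real.sin (Real.pi * x) ^ 2 = Real.sin (((H : ℝ) + 1) * Real.pi * x) ^ 2 := by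
  rw [fe_scale]
  induction H with
  | zero => simp
  | succ n ih =>
    have e1 : ∑ k ∈ Icc 1 (n + 1), (((n + 1 : ℕ) : ℝ) + 1 - k) * Real.cos (2 * Real.pi * k * x) =
        ∑ k ∈ Icc 1 n, ((n : ℝ) + 1 - k) * Real.cos (2 * Real.pi * k * x) +
          ∑ k ∈ Icc 1 (n + 1), Real.cos (2 * Real.pi * k * x) := by
      rw [sum_Icc_succ_top (by omega), sum_Icc_succ_top (by omega), ← add_assoc, ← sum_add_distrib]
      push_cast
      congr 1
      · apply sum_congr rfl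
        intro k _
        ring
      · ring
    have hd := fe_dir x (n + 1)
    have e2 : ((((n + 1 : ℕ) : ℝ) + 1) + 2 * ∑ k ∈ Icc 1 (n + 1), (((n + 1 : ℕ) : ℝ) + 1 - k) *
        Real.cos (2 * Real.pi * k * x)) * Real.sin (Real.pi * x) ^ 2 =
        (((n : ℝ) + 1) + 2 * ∑ k ∈ Icc 1 n, ((n : ℝ) + 1 - k) * Real.cos (2 * Real.pi * k * x)) *
          Real.sin (Real.pi * x) ^ 2 +
        ((1 + 2 * ∑ k ∈ Icc 1 (n + 1), Real.cos (2 * Real.pi * k * x)) * Real.sin (Real.pi * x)) *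
          Real.sin (Real.pi * x) := by
      rw [e1]
      push_cast
      ring
    rw [e2, ih, hd]
    push_cast
    have e3 : (2 * ((n : ℝ) + 1) + 1) * Real.pi * x =
        ((n : ℝ) + 1) * Real.pi * x + ((n : ℝ) + 1 + 1) * Real.pi * x := by ring
    have e4 : Real.pi * x = ((n : ℝ) + 1 + 1) * Real.pi * x - ((n : ℝ) + 1) * Real.pi * x := by ring
    rw [e3, Real.sin_add, e4, Real.sin_sub]
    have c1 := Real.sin_sq_add_cos_sq (((n : ℝ) + 1) * Real.pi * x)
    have c2 := Real.sin_sq_add_cos_sq (((n : ℝ) + 1 + 1) * Real.pi * x)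
    have c1' : Real.cos (((n : ℝ) + 1) * Real.pi * x) ^ 2 = 1 - Real.sin (((n : ℝ) + 1) * Real.pi * x) ^ 2 := by
      linarith
    have c2' : Real.cos (((n : ℝ) + 1 + 1) * Real.pi * x) ^ 2 =
        1 - Real.sin (((n : ℝ) + 1 + 1) * Real.pi * x) ^ 2 := by
      linarith
    have e5 : (Real.sin (((n : ℝ) + 1) * Real.pi * x) * Real.cos (((n : ℝ) + 1 + 1) * Real.pi * x) +
        Real.cos (((n : ℝ) + 1) * Real.pi * x) * Real.sin (((n : ℝ) + 1 + 1) * Real.pi * x)) *
        (Real.sin (((n : ℝ) + 1 + 1) * Real.pi * x) * Real.cos (((n : ℝ) + 1) * Real.pi * x) -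
        Real.cos (((n : ℝ) + 1 + 1) * Real.pi * x) * Real.sin (((n : ℝ) + 1) * Real.pi * x)) =
        Real.cos (((n : ℝ) + 1) * Real.pi * x) ^ 2 * Real.sin (((n : ℝ) + 1 + 1) * Real.pi * x) ^ 2 -
        Real.cos (((n : ℝ) + 1 + 1) * Real.pi * x) ^ 2 * Real.sin (((n : ℝ) + 1) * Real.pi * x) ^ 2 := by ring
    rw [e5, c1', c2']
    ring

theorem fej_nonneg (H : ℕ) (x : ℝ) : 0 ≤ fej H x := by
  have hH : (0 : ℝ) < (H : ℝ) + 1 := by positivity
  by_cases hs : Real.sin (Real.pi * x) = 0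
  · obtain ⟨n, hn⟩ := Real.sin_eq_zero_iff.mp hs
    have hx : x = n := by
      have := Real.pi_pos
      have h1 : Real.pi * x = Real.pi * n := by rw [← hn]; ring
      exact mul_left_cancel₀ this.ne' h1
    unfold fej
    have h2 : 0 ≤ ∑ k ∈ Icc 1 H, (1 - (k : ℝ) / (H + 1)) * Real.cos (2 * Real.pi * k * x) := by
      apply sum_nonneg
      intro k hk
      rw [mem_Icc] at hk
      have h3 : Real.cos (2 * Real.pi * k * x) = 1 := by
        have h4 : 2 * Real.pi * k * x = (((k : ℤ) * n : ℤ) : ℝ) * (2 * Real.pi) := by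
          rw [hx]; push_cast; ring
        rw [h4, Real.cos_int_mul_two_pi]
      rw [h3, mul_one, sub_nonneg, div_le_one hH]
      have : (k : ℝ) ≤ H := by exact_mod_cast hk.2
      linarith
    linarith
  · have hs2 : 0 < Real.sin (Real.pi * x) ^ 2 := by positivity
    have hk := fe_key x H
    have h0 : 0 ≤ ((H : ℝ) + 1) * fej H x * Real.sin (Real.pi * x) ^ 2 := by rw [hk]; positivity
    by_contra hneg
    rw [not_le] at hneg
    have : ((H : ℝ) + 1) * fej H x * Real.sin (Real.pi * x) ^ 2 < 0 :=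
      mul_neg_of_neg_of_pos (mul_neg_of_pos_of_neg hH hneg) hs2
    linarith

theorem fej_le (H : ℕ) (x d : ℝ) (hd : 0 < d) (hx : ∀ n : ℤ, d ≤ |x - n|) :
    fej H x ≤ 1 / ((H + 1) * (4 * d ^ 2)) := by
  have hH : (0 : ℝ) < (H : ℝ) + 1 := by positivity
  have h1 : 2 * d ≤ |Real.sin (Real.pi * (x - round x))| := by
    have h2 : |x - round x| ≤ 1 / 2 := abs_sub_round x
    have h3 : |Real.pi * (x - round x)| ≤ Real.pi / 2 := by
      rw [abs_mul, abs_of_pos Real.pi_pos]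
      nlinarith [Real.pi_pos]
    have h4 := Real.mul_abs_le_abs_sin h3
    have h5 : 2 / Real.pi * |Real.pi * (x - round x)| = 2 * |x - round x| := by
      rw [abs_mul, abs_of_pos Real.pi_pos]
      field_simp
    rw [h5] at h4
    have := hx (round x)
    linarith
  have h2 : Real.sin (Real.pi * (x - round x)) ^ 2 = Real.sin (Real.pi * x) ^ 2 := by
    rw [Real.sin_sq_eq_half_sub, Real.sin_sq_eq_half_sub]
    have h3 : 2 * (Real.pi * (x - round x)) = 2 * (Real.pi * x) - ((round x : ℤ) : ℝ) * (2 * Real.pi) := by ring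
    rw [h3, Real.cos_sub_int_mul_two_pi]
  have h3 : 4 * d ^ 2 ≤ Real.sin (Real.pi * x) ^ 2 := by
    rw [← h2, ← sq_abs (Real.sin (Real.pi * (x - round x)))]
    nlinarith
  have hk := fe_key x H
  have h4 : ((H : ℝ) + 1) * fej H x * Real.sin (Real.pi * x) ^ 2 ≤ 1 := by
    rw [hk]
    exact Real.sin_sq_le_one _
  have h5 : ((H : ℝ) + 1) * fej H x * (4 * d ^ 2) ≤ 1 := by
    refine le_trans ?_ h4
    exact mul_le_mul_of_nonneg_left h3 (mul_nonneg hH.le (fej_nonneg H x))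
  rw [le_div_iff₀ (by positivity)]
  linarith

end DSA
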