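import Pool.Agent.DSA.Defs

/-! DSA / Tr: the trivial bound for the energy when orders are large.

PROOF. `En S H b = ∑_{s,t ∈ S} ∑_{k,l : k s = l t} b k b l ≤ ∑_{s,t} ∑_{k,l : k s = l t} (b k² + b l²)/2`. For fixed
`s, t ∈ S` and `k` there is at most one `l ∈ [1,H]` with `k s = l t` (if `l t = l' t`, `l < l'`, then `(l' - l) t = 0`),
and symmetrically for `l`, so the inner sum is at most `∑ b n²`. -/

set_option autoImplicit false

open Finset

namespace DSA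

variable {G : Type*} [AddCommGroup G]

private theorem smul_inj_of_ord {H : ℕ} {t : G} (ht : ∀ k ∈ Icc 1 H, k • t ≠ 0) {l l' : ℕ}
    (hl : l ∈ Icc 1 H) (hl' : l' ∈ Icc 1 H) (h : l • t = l' • t) : l = l' := by
  rw [mem_Icc] at hl hl'
  rcases lt_trichotomy l l' with h1 | h1 | h1
  · exfalso
    refine ht (l' - l) (mem_Icc.2 ⟨by omega, by omega⟩) ?_
    have h2 : l • t + (l' - l) • t = l' • t := by
      rw [← add_nsmul]
      congr 1
      omega
    rw [h] at h2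
    exact add_eq_left.1 h2
  · exact h1
  · exfalso
    refine ht (l - l') (mem_Icc.2 ⟨by omega, by omega⟩) ?_
    have h2 : l' • t + (l - l') • t = l • t := by
      rw [← add_nsmul]
      congr 1
      omega
    rw [h] at h2
    exact add_eq_left.1 h2

private theorem sum_rp_right (S : Finset G) (H k : ℕ)
    (hord : ∀ s ∈ S, ∀ k ∈ Icc 1 H, k • s ≠ 0) :
    ∑ l ∈ Icc 1 H, (rp S k l : ℝ) ≤ (S.card : ℝ) ^ 2 := by
  classical
  have h1 : ∑ l ∈ Icc 1 H, rp S k l ≤ S.card ^ 2 := by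
    have h2 : ∀ l ∈ Icc 1 H, rp S k l =
        ∑ p ∈ S ×ˢ S, if k • p.1 = l • p.2 then 1 else 0 := by
      intro l _
      unfold rp
      rw [card_filter]
    rw [sum_congr rfl h2, sum_comm]
    have h3 : ∀ p ∈ S ×ˢ S, (∑ l ∈ Icc 1 H, if k • p.1 = l • p.2 then 1 else 0) ≤ 1 := by
      intro p hp
      rw [← card_filter, card_le_one]
      intro l hl l' hl'
      rw [mem_filter] at hl hl'
      exact smul_inj_of_ord (hord p.2 (mem_product.1 hp).2) hl.1 hl'.1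
        (hl.2.symm.trans hl'.2)
    refine (sum_le_sum h3).trans ?_
    rw [sum_const, card_product, smul_eq_mul, mul_one, sq]
  exact_mod_cast h1

private theorem sum_rp_left (S : Finset G) (H l : ℕ)
    (hord : ∀ s ∈ S, ∀ k ∈ Icc 1 H, k • s ≠ 0) :
    ∑ k ∈ Icc 1 H, (rp S k l : ℝ) ≤ (S.card : ℝ) ^ 2 := by
  classical
  have h1 : ∑ k ∈ Icc 1 H, rp S k l ≤ S.card ^ 2 := by
    have h2 : ∀ k ∈ Icc 1 H, rp S k l =
        ∑ p ∈ S ×ˢ S, if k • p.1 = l • p.2 then 1 else 0 := by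
      intro k _
      unfold rp
      rw [card_filter]
    rw [sum_congr rfl h2, sum_comm]
    have h3 : ∀ p ∈ S ×ˢ S, (∑ k ∈ Icc 1 H, if k • p.1 = l • p.2 then 1 else 0) ≤ 1 := by
      intro p hp
      rw [← card_filter, card_le_one]
      intro k hk k' hk'
      rw [mem_filter] at hk hk'
      exact smul_inj_of_ord (hord p.1 (mem_product.1 hp).1) hk.1 hk'.1
        (hk.2.trans hk'.2.symm)
    refine (sum_le_sum h3).trans ?_
    rw [sum_const, card_product, smul_eq_mul, mul_one, sq]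
  exact_mod_cast h1

theorem En_le_card_sq (S : Finset G) (H : ℕ) (b : ℕ → ℝ) (hb : ∀ k, 0 ≤ b k)
    (hord : ∀ s ∈ S, ∀ k ∈ Icc 1 H, k • s ≠ 0) :
    En S H b ≤ (S.card : ℝ) ^ 2 * ∑ n ∈ Icc 1 H, b n ^ 2 := by
  have _ := hb
  have h1 : ∑ k ∈ Icc 1 H, ∑ l ∈ Icc 1 H, b k ^ 2 * (rp S k l : ℝ) ≤
      (S.card : ℝ) ^ 2 * ∑ n ∈ Icc 1 H, b n ^ 2 := by
    rw [mul_sum]
    refine sum_le_sum fun k _ => ?_
    rw [← mul_sum, mul_comm ((S.card : ℝ) ^ 2)]
    exact mul_le_mul_of_nonneg_left (sum_rp_right S H k hord) (sq_nonneg _)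
  have h2 : ∑ k ∈ Icc 1 H, ∑ l ∈ Icc 1 H, b l ^ 2 * (rp S k l : ℝ) ≤
      (S.card : ℝ) ^ 2 * ∑ n ∈ Icc 1 H, b n ^ 2 := by
    rw [sum_comm, mul_sum]
    refine sum_le_sum fun l _ => ?_
    rw [← mul_sum, mul_comm ((S.card : ℝ) ^ 2)]
    exact mul_le_mul_of_nonneg_left (sum_rp_left S H l hord) (sq_nonneg _)
  have h3 : En S H b ≤ (∑ k ∈ Icc 1 H, ∑ l ∈ Icc 1 H, b k ^ 2 * (rp S k l : ℝ) +
      ∑ k ∈ Icc 1 H, ∑ l ∈ Icc 1 H, b l ^ 2 * (rp S k l : ℝ)) / 2 := by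
    unfold En
    rw [← sum_add_distrib, sum_div]
    refine sum_le_sum fun k _ => ?_
    rw [← sum_add_distrib, sum_div]
    refine sum_le_sum fun l _ => ?_
    have h4 : b k * b l ≤ (b k ^ 2 + b l ^ 2) / 2 := by nlinarith [sq_nonneg (b k - b l)]
    have h5 : (0 : ℝ) ≤ rp S k l := Nat.cast_nonneg _
    nlinarith [mul_le_mul_of_nonneg_right h4 h5]
  linarith

end DSA
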