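import Pool.Agent.DSA.Cs
import Pool.Agent.DSA.Tr
import Pool.Agent.DSA.Dv

/-! DSA / It: the iterated energy bound.

PROOF. Induction on `j`, for all `H`, `a`. `j = 0`: `En_le_card_sq` (`H^(2^0) = H`, exponent `1 + 1/1 = 2`, `hord` from
the hypothesis since `0 ∉ S`), `C0 ≥ 1`. `j + 1`: by `En_sq_le` and the induction hypothesis for `H * H`, `mc a`
(`mc_nonneg`, `mc_supp`, `(H*H)^(2^j) = H^(2^(j+1))`) and `sum_mc_sq_le` with `D = C0 (H*H)^δ`: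
`En² ≤ |S| * C0 |S|^{1+1/2^j} (H²)^{jδ} * C0 H^{2δ} (∑ a²)² = (C0 |S|^{1+1/2^{j+1}} H^{(j+1)δ} ∑ a²)²`; take square roots
(`abs_le_of_sq_le_sq'`, `pow_le_pow_left`). For `S = ∅` everything is `0` (`0^(…) = 0`). -/

set_option autoImplicit false

open Finset

namespace DSA

variable {G : Type*} [AddCommGroup G]

theorem En_le (C0 δ : ℝ) (hC0 : 1 ≤ C0) (hδ : 0 ≤ δ)
    (hd : ∀ n : ℕ, 1 ≤ n → (n.divisors.card : ℝ) ≤ C0 * (n : ℝ) ^ δ) (S : Finset G) (h0 : (0 : G) ∉ S) (j : ℕ) :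
    ∀ (H : ℕ) (a : ℕ → ℝ), 1 ≤ H → (∀ k, 0 ≤ a k) → (∀ k, H < k → a k = 0) →
      (∀ k ∈ Icc 1 (H ^ 2 ^ j), ∀ x : G, k • x = 0 → x = 0) →
      En S H a ≤ C0 * (S.card : ℝ) ^ (1 + 1 / (2 : ℝ) ^ j) * (H : ℝ) ^ (j * δ) * ∑ n ∈ Icc 1 H, a n ^ 2 := by
  induction j with
  | zero =>
    intro H a hH ha hs hinj
    have h1 := En_le_card_sq S H a ha (by
      intro s hs' k hk h2
      have h3 := hinj k (by simpa using hk) s h2
      rw [h3] at hs'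
      exact h0 hs')
    have h2 : 0 ≤ ∑ n ∈ Icc 1 H, a n ^ 2 := Finset.sum_nonneg fun n _ => sq_nonneg _
    have h3 : (S.card : ℝ) ^ (1 + 1 / (2 : ℝ) ^ 0) = (S.card : ℝ) ^ 2 := by
      rw [← Real.rpow_natCast]
      norm_num
    rw [h3]
    have h4 : (H : ℝ) ^ (((0 : ℕ) : ℝ) * δ) = 1 := by simp
    rw [h4, mul_one]
    calc En S H a ≤ (S.card : ℝ) ^ 2 * ∑ n ∈ Icc 1 H, a n ^ 2 := h1
      _ = 1 * ((S.card : ℝ) ^ 2 * ∑ n ∈ Icc 1 H, a n ^ 2) := by ring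
      _ ≤ C0 * ((S.card : ℝ) ^ 2 * ∑ n ∈ Icc 1 H, a n ^ 2) :=
          mul_le_mul_of_nonneg_right hC0 (by positivity)
      _ = C0 * (S.card : ℝ) ^ 2 * ∑ n ∈ Icc 1 H, a n ^ 2 := by ring
  | succ j ih =>
    intro H a hH ha hs hinj
    have hHp : H ≤ H ^ 2 ^ (j + 1) := by
      calc H = H ^ 1 := (pow_one H).symm
        _ ≤ H ^ 2 ^ (j + 1) := Nat.pow_le_pow_right hH Nat.one_le_two_pow
    have e1 := En_sq_le S H a ha hs (by
      intro k hk x hx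
      rw [mem_Icc] at hk
      exact hinj k (mem_Icc.2 ⟨hk.1, hk.2.trans hHp⟩) x hx)
    have hpow : (H * H) ^ 2 ^ j = H ^ 2 ^ (j + 1) := by
      rw [← sq, ← pow_mul, pow_succ, mul_comm]
    have e2 := ih (H * H) (mc a) (Nat.mul_pos hH hH) (mc_nonneg a ha) (mc_supp H a hs) (by
      rw [hpow]
      exact hinj)
    have hH0 : (0 : ℝ) ≤ H := by positivity
    have e3 := sum_mc_sq_le H a hs (C0 * ((H * H : ℕ) : ℝ) ^ δ) (by
      intro n hn
      rw [mem_Icc] at hn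
      refine (hd n hn.1).trans ?_
      apply mul_le_mul_of_nonneg_left _ (by linarith)
      apply Real.rpow_le_rpow (by positivity) _ hδ
      exact_mod_cast hn.2)
    set c : ℝ := (S.card : ℝ) with hc
    set T : ℝ := ∑ n ∈ Icc 1 H, a n ^ 2 with hT
    have hT0 : 0 ≤ T := Finset.sum_nonneg fun n _ => sq_nonneg _
    have hc0 : 0 ≤ c := by rw [hc]; positivity
    have hRHS : 0 ≤ C0 * c ^ (1 + 1 / (2 : ℝ) ^ (j + 1)) * (H : ℝ) ^ (((j + 1 : ℕ) : ℝ) * δ) * T := by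
      have : 0 ≤ C0 := by linarith
      positivity
    have hsq : En S H a ^ 2 ≤
        (C0 * c ^ (1 + 1 / (2 : ℝ) ^ (j + 1)) * (H : ℝ) ^ (((j + 1 : ℕ) : ℝ) * δ) * T) ^ 2 := by
      rcases hc0.eq_or_lt with hz | hpos
      · rw [← hz, zero_mul] at e1
        exact e1.trans (sq_nonneg _)
      · have hA : 0 ≤ C0 * c ^ (1 + 1 / (2 : ℝ) ^ j) * ((H * H : ℕ) : ℝ) ^ (j * δ) := by
          have : 0 ≤ C0 := by linarith
          positivity
        have f1 : c * c ^ (1 + 1 / (2 : ℝ) ^ j) = (c ^ (1 + 1 / (2 : ℝ) ^ (j + 1))) ^ 2 := by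
          rw [← Real.rpow_natCast (c ^ (1 + 1 / (2 : ℝ) ^ (j + 1))) 2, ← Real.rpow_mul hc0]
          nth_rewrite 1 [← Real.rpow_one c]
          rw [← Real.rpow_add hpos]
          congr 1
          rw [pow_succ]
          push_cast
          field_simp
          ring
        have f2 : ((H * H : ℕ) : ℝ) ^ ((j : ℝ) * δ) * ((H * H : ℕ) : ℝ) ^ δ =
            ((H : ℝ) ^ (((j + 1 : ℕ) : ℝ) * δ)) ^ 2 := by
          have hHH : (0 : ℝ) < ((H * H : ℕ) : ℝ) := by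
            exact_mod_cast Nat.mul_pos hH hH
          rw [← Real.rpow_add hHH]
          push_cast
          rw [Real.mul_rpow hH0 hH0]
          have : (j : ℝ) * δ + δ = ((j : ℝ) + 1) * δ := by ring
          rw [this]
          ring
        calc En S H a ^ 2 ≤ c * En S (H * H) (mc a) := e1
          _ ≤ c * (C0 * c ^ (1 + 1 / (2 : ℝ) ^ j) * ((H * H : ℕ) : ℝ) ^ (j * δ) *
              ∑ n ∈ Icc 1 (H * H), mc a n ^ 2) := mul_le_mul_of_nonneg_left e2 hc0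
          _ ≤ c * (C0 * c ^ (1 + 1 / (2 : ℝ) ^ j) * ((H * H : ℕ) : ℝ) ^ (j * δ) *
              (C0 * ((H * H : ℕ) : ℝ) ^ δ * T ^ 2)) :=
              mul_le_mul_of_nonneg_left (mul_le_mul_of_nonneg_left e3 hA) hc0
          _ = C0 ^ 2 * (c * c ^ (1 + 1 / (2 : ℝ) ^ j)) *
              (((H * H : ℕ) : ℝ) ^ ((j : ℝ) * δ) * ((H * H : ℕ) : ℝ) ^ δ) * T ^ 2 := by ring
          _ = _ := by rw [f1, f2]; ring
    exact (le_abs_self _).trans (abs_le_of_sq_le_sq hsq hRHS)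

end DSA
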