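import Mathlib

/-! DSA / Pa: choice of the parameters (pure real analysis).

PROOF. Take `j` with `x := 1/2^j ≤ ε/8`, `j ≥ 1`, `δ = x/(4 j)`, `η = ε/8`, `C = 3 * 2^j + 1`. For given `C0` and large `m`
(so `n ≥ m - 1` is large) put `a0 = n^(-1+2x)`, `H = ⌈8/(η a0)²⌉₊`, so `8 ≤ (H+1) (η a0)²`, `1 ≤ H`, and
`H ≤ 9/(η a0)² = (9/η²) n^(2-4x) ≤ (9/η²) n²` (as `η a0 ≤ 1`). `H^(jδ) ≤ (9/η²)^(jδ) n^(x/2)` (`2 j δ = x/2`), and
`η a0 n^(1-x) = η n^x`, so the strict inequality holds once `n^(x/2)` is large. `J = ⌊logb (2+η) (1/(4 (1+η) a0))⌋₊ + 1`: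
`(2+η)^(J-1) ≤ 1/(4 (1+η) a0)`, and `J ≥ ((1-2x) logb 2 n - logb 2 (4(1+η))) / logb 2 (2+η)` with
`logb 2 (2+η) ≤ 1 + η` (`log(1+η/2) ≤ η/2 ≤ η log 2`), `n ≥ m/2`; `(1-2x)/(1+η) ≥ 1 - ε/4 - ε/8`, so `J ≥ (1-ε) logb 2 m` for
large `m`. `H^(2^j) ≤ ((9/η²) (2m)²)^(2^j) < m^C` for large `m` (as `n ≤ 2 m`; `(9/η²) 4 m² ≤ m³`). -/

set_option autoImplicit false

namespace DSA

private theorem pick_j (ε : ℝ) (hε : 0 < ε) : ∃ j : ℕ, 1 ≤ j ∧ 1 / (2 : ℝ) ^ j ≤ ε / 8 := by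
  obtain ⟨k, hk⟩ := exists_pow_lt_of_lt_one (show (0 : ℝ) < ε / 8 by positivity)
    (show (1 / 2 : ℝ) < 1 by norm_num)
  refine ⟨k + 1, by omega, ?_⟩
  have h1 : 1 / (2 : ℝ) ^ (k + 1) = (1 / 2) ^ k * (1 / 2) := by
    rw [one_div_pow, pow_succ, one_div_mul_one_div]
  rw [h1]
  have h2 : (0 : ℝ) < (1 / 2) ^ k := by positivity
  linarith

/-- the largest admissible `J` -/
private theorem pick_J {η a0 : ℝ} (hη : 0 < η) (ha : 0 < a0) (hA : 4 * (1 + η) * a0 ≤ 1) :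
    ∃ J : ℕ, (1 + η) * a0 * (2 + η) ^ (J - 1) ≤ 1 / 4 ∧
      -Real.log (4 * (1 + η) * a0) ≤ J * ((1 + η) * Real.log 2) := by
  set A : ℝ := (4 * (1 + η) * a0)⁻¹ with hAdef
  have hpos : 0 < 4 * (1 + η) * a0 := by positivity
  have hA1 : 1 ≤ A := (one_le_inv₀ hpos).2 hA
  have hA0 : 0 < A := by positivity
  have h2 : (1 : ℝ) < 2 + η := by linarith
  have hlog : 0 < Real.log (2 + η) := Real.log_pos h2
  have hlb : 0 ≤ Real.logb (2 + η) A := Real.logb_nonneg h2 hA1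
  refine ⟨⌊Real.logb (2 + η) A⌋₊ + 1, ?_, ?_⟩
  · rw [Nat.add_sub_cancel]
    have h3 : (2 + η) ^ ⌊Real.logb (2 + η) A⌋₊ ≤ A := by
      rw [← Real.rpow_natCast]
      calc (2 + η) ^ ((⌊Real.logb (2 + η) A⌋₊ : ℕ) : ℝ)
          ≤ (2 + η) ^ Real.logb (2 + η) A :=
            Real.rpow_le_rpow_of_exponent_le h2.le (Nat.floor_le hlb)
        _ = A := Real.rpow_logb (by linarith) h2.ne' hA0
    have h4 : (4 * (1 + η) * a0) * (2 + η) ^ ⌊Real.logb (2 + η) A⌋₊ ≤ 1 := by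
      calc (4 * (1 + η) * a0) * (2 + η) ^ ⌊Real.logb (2 + η) A⌋₊
          ≤ (4 * (1 + η) * a0) * A := mul_le_mul_of_nonneg_left h3 hpos.le
        _ = 1 := mul_inv_cancel₀ hpos.ne'
    linarith
  · have h3 : Real.logb (2 + η) A ≤ ((⌊Real.logb (2 + η) A⌋₊ + 1 : ℕ) : ℝ) := by
      rw [Nat.cast_add, Nat.cast_one]
      exact (Nat.lt_floor_add_one _).le
    have h4 : Real.log A = Real.logb (2 + η) A * Real.log (2 + η) := by
      rw [Real.logb, div_mul_cancel₀ _ hlog.ne']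
    have h5 : Real.log (2 + η) ≤ (1 + η) * Real.log 2 := by
      have e1 : (2 + η) = 2 * (1 + η / 2) := by ring
      have e2 : Real.log (1 + η / 2) ≤ η / 2 := by
        have := Real.log_le_sub_one_of_pos (show (0 : ℝ) < 1 + η / 2 by linarith)
        linarith
      have e3 : (1 / 2 : ℝ) < Real.log 2 := by
        have := Real.log_two_gt_d9
        linarith
      rw [e1, Real.log_mul (by norm_num) (by linarith)]
      nlinarith
    have h6 : -Real.log (4 * (1 + η) * a0) = Real.log A := by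
      rw [hAdef, Real.log_inv]
    rw [h6, h4]
    exact mul_le_mul h3 h5 hlog.le (Nat.cast_nonneg _)

theorem params (ε : ℝ) (hε : 0 < ε) (hε1 : ε < 1) :
    ∃ j : ℕ, ∃ δ : ℝ, 0 < δ ∧ ∀ C0 : ℝ, 1 ≤ C0 → ∃ m0 C : ℕ, ∀ m n : ℕ, m0 ≤ m → m ≤ n + 1 → n ≤ 2 * m →
      ∃ (a0 η : ℝ) (J H : ℕ), 0 < η ∧ η ≤ 1 ∧ 0 < a0 ∧ (1 + η) * a0 * (2 + η) ^ (J - 1) ≤ 1 / 4 ∧ 1 ≤ H ∧
        8 ≤ (H + 1) * (η * a0) ^ 2 ∧
        96 * C0 * (H : ℝ) ^ (j * δ) < η * a0 * (n : ℝ) ^ (1 - 1 / (2 : ℝ) ^ j) ∧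
        H ^ 2 ^ j < m ^ C ∧ (1 - ε) * Real.logb 2 m ≤ J := by
  obtain ⟨j, hj, hx⟩ := pick_j ε hε
  set x : ℝ := 1 / (2 : ℝ) ^ j with hxdef
  have hx0 : 0 < x := by positivity
  have hj0 : (0 : ℝ) < j := by exact_mod_cast hj
  refine ⟨j, x / (4 * j), by positivity, fun C0 hC0 => ?_⟩
  have hjd : (j : ℝ) * (x / (4 * j)) = x / 4 := by
    field_simp
  set η : ℝ := ε / 8 with hηdef
  have hη : 0 < η := by positivity
  have hη1 : η ≤ 1 := by linarith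
  set K1 : ℝ := 96 * C0 * (9 / η ^ 2) ^ (x / 4) / η with hK1
  obtain ⟨N1, hN1⟩ := Filter.eventually_atTop.1
    ((tendsto_rpow_atTop (show 0 < x / 2 by positivity)).eventually_gt_atTop K1)
  obtain ⟨M1, hM1⟩ := Filter.eventually_atTop.1
    (Real.tendsto_log_atTop.eventually_ge_atTop (4 * Real.log 2 / (5 * ε / 8)))
  set m0 : ℕ := ⌈max (2 * N1) (max M1 (max 128 (36 / η ^ 2)))⌉₊ with hm0
  refine ⟨m0, 3 * 2 ^ j + 1, fun m n hm hmn hnm => ?_⟩
  have hm' : max (2 * N1) (max M1 (max 128 (36 / η ^ 2))) ≤ (m : ℝ) := by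
    refine (Nat.le_ceil _).trans ?_
    exact_mod_cast hm
  have g1 : 2 * N1 ≤ (m : ℝ) := (le_max_left _ _).trans hm'
  have g2 : M1 ≤ (m : ℝ) := (le_max_left _ _).trans ((le_max_right _ _).trans hm')
  have g3 : (128 : ℝ) ≤ (m : ℝ) :=
    (le_max_left _ _).trans ((le_max_right _ _).trans ((le_max_right _ _).trans hm'))
  have g4 : 36 / η ^ 2 ≤ (m : ℝ) :=
    (le_max_right _ _).trans ((le_max_right _ _).trans ((le_max_right _ _).trans hm'))
  set N : ℝ := (n : ℝ) with hNdef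
  have g5 : (m : ℝ) ≤ N + 1 := by
    rw [hNdef]
    exact_mod_cast hmn
  have g6 : N ≤ 2 * (m : ℝ) := by
    rw [hNdef]
    exact_mod_cast hnm
  have g7 : (m : ℝ) / 2 ≤ N := by linarith
  have g8 : (64 : ℝ) ≤ N := by linarith
  have hN0 : 0 < N := by linarith
  have hN1' : 1 ≤ N := by linarith
  have hx8 : x ≤ 1 / 8 := by linarith
  set a0 : ℝ := N ^ (-1 + 2 * x) with ha0def
  have ha0 : 0 < a0 := Real.rpow_pos_of_pos hN0 _
  have ha01 : a0 ≤ 1 := Real.rpow_le_one_of_one_le_of_nonpos hN1' (by linarith)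
  have hηa : 0 < η * a0 := by positivity
  have hηa1 : η * a0 ≤ 1 := mul_le_one₀ hη1 ha0.le ha01
  -- the bound for `4 (1 + η) a0`
  have hA : 4 * (1 + η) * a0 ≤ 1 := by
    have e1 : a0 ≤ N ^ (-(1 / 2) : ℝ) :=
      Real.rpow_le_rpow_of_exponent_le hN1' (by linarith)
    have e2 : N ^ (-(1 / 2) : ℝ) ≤ (64 : ℝ) ^ (-(1 / 2) : ℝ) :=
      Real.rpow_le_rpow_of_nonpos (by norm_num) g8 (by norm_num)
    have e3 : (64 : ℝ) ^ (-(1 / 2) : ℝ) = 1 / 8 := by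
      have e4 : (64 : ℝ) = 8 ^ (2 : ℝ) := by norm_num
      rw [e4, ← Real.rpow_mul (by norm_num)]
      norm_num
    rw [e3] at e2
    have e5 : a0 ≤ 1 / 8 := e1.trans e2
    have e6 : 4 * (1 + η) * a0 ≤ 8 * (1 / 8) :=
      mul_le_mul (by linarith) e5 ha0.le (by norm_num)
    linarith
  obtain ⟨J, hJ1, hJ2⟩ := pick_J hη ha0 hA
  set H : ℕ := ⌈8 / (η * a0) ^ 2⌉₊ with hHdef
  have hH1 : 8 / (η * a0) ^ 2 ≤ (H : ℝ) := Nat.le_ceil _
  have hH0 : 1 ≤ H := Nat.one_le_iff_ne_zero.2 (by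
    intro h0
    rw [h0, Nat.cast_zero] at hH1
    have : 0 < 8 / (η * a0) ^ 2 := by positivity
    linarith)
  have hH2 : (H : ℝ) ≤ 9 / (η * a0) ^ 2 := by
    have e1 : (H : ℝ) < 8 / (η * a0) ^ 2 + 1 := Nat.ceil_lt_add_one (by positivity)
    have e2 : 1 ≤ 1 / (η * a0) ^ 2 := by
      rw [le_div_iff₀ (by positivity), one_mul]
      exact pow_le_one₀ hηa.le hηa1
    have e3 : 9 / (η * a0) ^ 2 = 8 / (η * a0) ^ 2 + 1 / (η * a0) ^ 2 := by
      rw [← add_div]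
      norm_num
    linarith
  have ha0N : 1 / a0 ≤ N := by
    rw [div_le_iff₀ ha0, ha0def]
    have e1 : N * N ^ (-1 + 2 * x) = N ^ (2 * x) := by
      have e2 : N ^ (2 * x) = N ^ (1 + (-1 + 2 * x)) := by
        congr 1
        ring
      rw [e2, Real.rpow_add hN0 1, Real.rpow_one]
    rw [e1]
    exact Real.one_le_rpow hN1' (by positivity)
  have hH3 : (H : ℝ) ≤ 9 / η ^ 2 * N ^ 2 := by
    refine hH2.trans ?_
    have e1 : 9 / (η * a0) ^ 2 = 9 / η ^ 2 * (1 / a0) ^ 2 := by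
      rw [mul_pow, one_div_pow]
      field_simp
    rw [e1]
    refine mul_le_mul_of_nonneg_left ?_ (by positivity)
    exact pow_le_pow_left₀ (by positivity) ha0N 2
  refine ⟨a0, η, J, H, hη, hη1, ha0, hJ1, hH0, ?_, ?_, ?_, ?_⟩
  · have e1 : 8 ≤ (H : ℝ) * (η * a0) ^ 2 := by
      rwa [div_le_iff₀ (by positivity)] at hH1
    have e2 := sq_nonneg (η * a0)
    linarith
  · rw [hjd]
    have e1 : (H : ℝ) ^ (x / 4) ≤ (9 / η ^ 2) ^ (x / 4) * N ^ (x / 2) := by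
      refine (Real.rpow_le_rpow (Nat.cast_nonneg _) hH3 (by positivity)).trans ?_
      rw [Real.mul_rpow (by positivity) (by positivity), ← Real.rpow_natCast N 2,
        ← Real.rpow_mul hN0.le]
      refine le_of_eq ?_
      congr 2
      push_cast
      ring
    have e2 : η * a0 * N ^ (1 - x) = η * N ^ (x / 2) * N ^ (x / 2) := by
      rw [ha0def, mul_assoc, mul_assoc, ← Real.rpow_add hN0, ← Real.rpow_add hN0]
      congr 2
      ring
    rw [e2]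
    have e3 : K1 < N ^ (x / 2) := hN1 N (by linarith)
    have e4 : 0 < N ^ (x / 2) := Real.rpow_pos_of_pos hN0 _
    have e5 : 96 * C0 * (9 / η ^ 2) ^ (x / 4) < η * N ^ (x / 2) := by
      rw [hK1, div_lt_iff₀ hη] at e3
      linarith
    calc 96 * C0 * (H : ℝ) ^ (x / 4) ≤ 96 * C0 * ((9 / η ^ 2) ^ (x / 4) * N ^ (x / 2)) :=
          mul_le_mul_of_nonneg_left e1 (by linarith)
      _ = (96 * C0 * (9 / η ^ 2) ^ (x / 4)) * N ^ (x / 2) := by ring
      _ < (η * N ^ (x / 2)) * N ^ (x / 2) := mul_lt_mul_of_pos_right e5 e4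
  · have e1 : (H : ℝ) ≤ (m : ℝ) ^ 3 := by
      refine hH3.trans ?_
      have e2 : N ^ 2 ≤ (2 * (m : ℝ)) ^ 2 := pow_le_pow_left₀ hN0.le g6 2
      calc 9 / η ^ 2 * N ^ 2 ≤ 9 / η ^ 2 * (2 * (m : ℝ)) ^ 2 :=
            mul_le_mul_of_nonneg_left e2 (by positivity)
        _ = 36 / η ^ 2 * (m : ℝ) ^ 2 := by ring
        _ ≤ (m : ℝ) * (m : ℝ) ^ 2 := mul_le_mul_of_nonneg_right g4 (by positivity)
        _ = (m : ℝ) ^ 3 := by ring
    have e3 : H ≤ m ^ 3 := by exact_mod_cast e1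
    have hm2 : 1 < m := by
      have : (1 : ℝ) < m := by linarith
      exact_mod_cast this
    calc H ^ 2 ^ j ≤ (m ^ 3) ^ 2 ^ j := Nat.pow_le_pow_left e3 _
      _ = m ^ (3 * 2 ^ j) := by rw [← pow_mul]
      _ < m ^ (3 * 2 ^ j + 1) := Nat.pow_lt_pow_right hm2 (Nat.lt_succ_self _)
  · have hm0' : (0 : ℝ) < m := by linarith
    have hl2 : 0 < Real.log 2 := Real.log_pos one_lt_two
    have e1 : Real.log (4 * (1 + η) * a0) = Real.log (4 * (1 + η)) + (-1 + 2 * x) * Real.log N := by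
      rw [Real.log_mul (by positivity) ha0.ne', ha0def, Real.log_rpow hN0]
    have e2 : Real.log (4 * (1 + η)) ≤ 3 * Real.log 2 := by
      have h8 : Real.log ((2 : ℝ) ^ 3) = 3 * Real.log 2 := by
        rw [Real.log_pow]
        norm_num
      rw [← h8]
      exact Real.log_le_log (by positivity) (by norm_num; linarith)
    have e3 : Real.log (m : ℝ) - Real.log 2 ≤ Real.log N := by
      rw [← Real.log_div hm0'.ne' (by norm_num)]
      exact Real.log_le_log (by positivity) g7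
    have e4 : 4 * Real.log 2 / (5 * ε / 8) ≤ Real.log (m : ℝ) := hM1 _ g2
    have e5 : 4 * Real.log 2 ≤ 5 * ε / 8 * Real.log (m : ℝ) := by
      rwa [div_le_iff₀' (by positivity)] at e4
    have e6 : Real.log 2 ≤ Real.log (m : ℝ) := Real.log_le_log (by norm_num) (by linarith)
    rw [Real.logb, mul_div_assoc', div_le_iff₀ hl2]
    have e7 : (1 - ε) * (1 + η) * Real.log (m : ℝ) ≤ J * Real.log 2 * (1 + η) := by
      have f1 : (1 - 2 * x) * (Real.log (m : ℝ) - Real.log 2) ≤ (1 - 2 * x) * Real.log N :=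
        mul_le_mul_of_nonneg_left e3 (by linarith)
      have f2 : (1 - ε / 4) * (Real.log (m : ℝ) - Real.log 2) ≤
          (1 - 2 * x) * (Real.log (m : ℝ) - Real.log 2) :=
        mul_le_mul_of_nonneg_right (by linarith) (by linarith)
      have f3 : (1 - ε) * (1 + η) ≤ 1 - 7 * ε / 8 := by
        rw [hηdef]
        nlinarith
      have f4 : (1 - ε) * (1 + η) * Real.log (m : ℝ) ≤ (1 - 7 * ε / 8) * Real.log (m : ℝ) :=
        mul_le_mul_of_nonneg_right f3 (by linarith)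
      have f5 : 0 ≤ ε * Real.log 2 := by positivity
      rw [e1] at hJ2
      linarith
    refine le_of_mul_le_mul_right ?_ (show (0 : ℝ) < 1 + η by linarith)
    linarith

end DSA
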