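import Pool.Agent.Helper81.Dissoc.Basic

/-! DSA / Up: the upper bound.

PROOF. `A = {j g : 0 ≤ j < m}` (`m` distinct elements, as the order of `g` is `> 2m`). `B ⊆ A` dissociated, `d = |B|`: the
`2^d` subset sums are distinct (`Dissociated.sum_injOn`) and of the form `t g`, `0 ≤ t ≤ d (m-1)`, so
`2^d ≤ d (m-1) + 1 ≤ d m` if `d ≥ 1`. Numeric part `two_pow_le`: `2^d ≤ d m` implies `d ≤ (1+ε) logb 2 m` for `m ≥ m0(ε)`:
`d ≤ logb 2 m + logb 2 d` and `logb 2 d ≤ (ε/(1+ε)) d` for `d ≥ d0`; if `d < d0` then `d < d0 ≤ logb 2 m0`. -/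

set_option autoImplicit false

open Finset

namespace DSA

theorem two_pow_le (ε : ℝ) (hε : 0 < ε) :
    ∃ m0 : ℕ, ∀ m d : ℕ, m0 ≤ m → 2 ^ d ≤ d * m → (d : ℝ) ≤ (1 + ε) * Real.logb 2 m := by
  have h1ε : (0 : ℝ) < 1 + ε := by linarith
  have hl2 : 0 < Real.log 2 := Real.log_pos (by norm_num)
  have hc : 0 < Real.log 2 * (ε / (1 + ε)) := by positivity
  have h1 : ∀ᶠ d : ℕ in Filter.atTop, ‖Real.log (d : ℝ)‖ ≤
      (Real.log 2 * (ε / (1 + ε))) * ‖(id (d : ℝ) : ℝ)‖ :=
    tendsto_natCast_atTop_atTop.eventually (Real.isLittleO_log_id_atTop.def hc)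
  obtain ⟨d0, hd0⟩ := Filter.eventually_atTop.1 h1
  refine ⟨2 ^ d0, fun m d hm hd => ?_⟩
  have hm1 : 1 ≤ m := le_trans Nat.one_le_two_pow hm
  have hm0 : (0 : ℝ) < m := by exact_mod_cast hm1
  have hlm : (d0 : ℝ) * Real.log 2 ≤ Real.log m := by
    rw [← Real.log_pow]
    apply Real.log_le_log (by positivity)
    exact_mod_cast hm
  have hlm0 : 0 ≤ Real.log m := Real.log_nonneg (by exact_mod_cast hm1)
  rw [Real.logb, mul_div_assoc', le_div_iff₀ hl2]
  rcases lt_or_ge d d0 with h | h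
  · have h2 : (d : ℝ) ≤ d0 := by exact_mod_cast h.le
    nlinarith
  · have hdpos : 0 < d := by
      rcases Nat.eq_zero_or_pos d with h0 | h0
      · rw [h0] at hd
        simp at hd
      · exact h0
    have hd1 : (1 : ℝ) ≤ d := by exact_mod_cast hdpos
    have h2 := hd0 d h
    rw [Real.norm_of_nonneg (Real.log_nonneg hd1), id, Real.norm_of_nonneg (by linarith)] at h2
    have h3 : (d : ℝ) * Real.log 2 ≤ Real.log d + Real.log m := by
      rw [← Real.log_pow, ← Real.log_mul (by linarith) hm0.ne']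
      apply Real.log_le_log (by positivity)
      exact_mod_cast hd
    have h4 : (d : ℝ) * Real.log 2 ≤ Real.log 2 * (ε / (1 + ε)) * d + Real.log m := by linarith
    have h5 : (1 + ε) * (Real.log 2 * (ε / (1 + ε)) * d) = Real.log 2 * ε * d := by
      field_simp
    have h6 := mul_le_mul_of_nonneg_left h4 h1ε.le
    rw [mul_add, h5] at h6
    linarith

theorem upper_set {G : Type*} [AddCommGroup G] (m : ℕ) (hm : 1 ≤ m) (g : G) (hg : m ≤ addOrderOf g) :
    ∃ A : Finset G, A.card = m ∧ ∀ B : Finset G, B ⊆ A → Pool.Agent.Helper81.Dissoc.Dissociated B →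
      B.card = 0 ∨ 2 ^ B.card ≤ B.card * m := by
  classical
  refine ⟨(range m).image fun j => j • g, ?_, ?_⟩
  · rw [Finset.card_image_of_injOn, Finset.card_range]
    intro i hi j hj hij
    rw [Finset.mem_coe, Finset.mem_range] at hi hj
    exact nsmul_injOn_Iio_addOrderOf (Set.mem_Iio.2 (hi.trans_le hg))
      (Set.mem_Iio.2 (hj.trans_le hg)) hij
  · intro B hB hd
    rcases Nat.eq_zero_or_pos B.card with h0 | h0
    · exact Or.inl h0
    right
    have hj : ∀ b : G, ∃ j : ℕ, b ∈ B → j < m ∧ j • g = b := by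
      intro b
      by_cases hb : b ∈ B
      · obtain ⟨j, hj, hjb⟩ := Finset.mem_image.1 (hB hb)
        exact ⟨j, fun _ => ⟨Finset.mem_range.1 hj, hjb⟩⟩
      · exact ⟨0, fun h => absurd h hb⟩
    choose j hj using hj
    have hinj : Set.InjOn (fun S : Finset G => ∑ b ∈ S, j b) (B.powerset : Set (Finset G)) := by
      intro S hS T hT h
      rw [Finset.mem_coe, Finset.mem_powerset] at hS hT
      apply hd.sum_injOn hS hT
      have e1 : ∀ U : Finset G, U ⊆ B → ∑ b ∈ U, b = (∑ b ∈ U, j b) • g := by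
        intro U hU
        rw [Finset.sum_smul]
        exact Finset.sum_congr rfl fun b hb => ((hj b (hU hb)).2).symm
      simp only at h
      rw [e1 S hS, e1 T hT, h]
    have hcard : (B.powerset.image fun S : Finset G => ∑ b ∈ S, j b).card = 2 ^ B.card := by
      rw [Finset.card_image_of_injOn hinj, Finset.card_powerset]
    have hsub : (B.powerset.image fun S : Finset G => ∑ b ∈ S, j b) ⊆
        range (B.card * (m - 1) + 1) := by
      intro t ht
      obtain ⟨S, hS, rfl⟩ := Finset.mem_image.1 ht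
      rw [Finset.mem_powerset] at hS
      rw [Finset.mem_range, Nat.lt_succ_iff]
      calc ∑ b ∈ S, j b ≤ ∑ _b ∈ S, (m - 1) := by
            apply Finset.sum_le_sum
            intro b hb
            have := (hj b (hS hb)).1
            omega
        _ = S.card * (m - 1) := by rw [Finset.sum_const, smul_eq_mul]
        _ ≤ B.card * (m - 1) := Nat.mul_le_mul_right _ (Finset.card_le_card hS)
    have h1 := Finset.card_le_card hsub
    rw [hcard, Finset.card_range] at h1
    obtain ⟨k, rfl⟩ : ∃ k, m = k + 1 := ⟨m - 1, by omega⟩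
    rw [Nat.add_sub_cancel] at h1
    calc 2 ^ B.card ≤ B.card * k + 1 := h1
      _ ≤ B.card * (k + 1) := by rw [Nat.mul_add]; omega

end DSA
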