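import Pool.Agent.DSA.Se
import Pool.Agent.DSA.Pa
import Pool.Agent.DSA.Db
import Pool.Agent.DSA.Up

/-! DSA / Main: assembly. -/

set_option autoImplicit false

open Finset Pool.Agent.Helper81.Dissoc

namespace DSA

theorem inj_of_primes {G : Type*} [AddCommGroup G] [Fintype G] (N : ℕ)
    (h : ∀ q : ℕ, q.Prime → q ∣ Fintype.card G → N < q) (k : ℕ) (hk : k ∈ Icc 1 N) (x : G) (hx : k • x = 0) :
    x = 0 := by
  by_contra hne
  have h1 : addOrderOf x ∣ k := addOrderOf_dvd_of_nsmul_eq_zero hx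
  have h2 : addOrderOf x ∣ Fintype.card G := addOrderOf_dvd_card
  have h3 : addOrderOf x ≠ 1 := by
    intro h
    exact hne (AddMonoid.addOrderOf_eq_one_iff.mp h)
  obtain ⟨q, hq, hqd⟩ := Nat.exists_prime_and_dvd h3
  have h4 := h q hq (hqd.trans h2)
  have h5 : q ≤ k := Nat.le_of_dvd (by simp at hk; omega) (hqd.trans h1)
  simp at hk
  omega

theorem lower (ε : ℝ) (hε : 0 < ε) (hε1 : ε < 1) :
    ∃ C m₀ : ℕ, ∀ (G : Type*) [AddCommGroup G] [Fintype G] (A : Finset G), m₀ ≤ A.card →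
      (∀ q : ℕ, q.Prime → q ∣ Fintype.card G → A.card ^ C ≤ q) →
      ∃ B : Finset G, B ⊆ A ∧ Dissociated B ∧ (1 - ε) * Real.logb 2 A.card ≤ B.card := by
  classical
  obtain ⟨j, δ, hδ, hpar⟩ := params ε hε hε1
  obtain ⟨C0, hC0, hdiv⟩ := divisor_bound δ hδ
  obtain ⟨m0, C, hm⟩ := hpar C0 hC0
  refine ⟨C, max m0 2, ?_⟩
  intro G _ _ A hA hq
  set A' := A.erase 0 with hA'
  set S := A' ∪ A'.image Neg.neg with hSdef
  have hA1 : A.card ≤ A'.card + 1 := by
    rw [hA']
    have := Finset.pred_card_le_card_erase (s := A) (a := (0 : G))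
    omega
  have hAS : A'.card ≤ S.card := Finset.card_le_card Finset.subset_union_left
  have hS2 : S.card ≤ 2 * A.card := by
    calc S.card ≤ A'.card + (A'.image Neg.neg).card := Finset.card_union_le _ _
      _ ≤ A.card + A.card := by
        have h1 : A'.card ≤ A.card := Finset.card_le_card (Finset.erase_subset _ _)
        have h2 : (A'.image Neg.neg).card ≤ A'.card := Finset.card_image_le
        omega
      _ = 2 * A.card := by ring
  obtain ⟨a0, η, J, H, hη, hη1, ha0, hJ, hH1, hH, hsum, hHC, hfin⟩ :=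
    hm A.card S.card (le_trans (le_max_left _ _) hA) (by omega) hS2
  have hA2 : 2 ≤ A.card := le_trans (le_max_right _ _) hA
  have hne : S.Nonempty := by
    rw [← Finset.card_pos]; omega
  have h0 : (0 : G) ∉ S := by
    simp [hSdef, hA']
  have hSs : ∀ s ∈ S, -s ∈ S := by
    intro s hs
    simp only [hSdef, Finset.mem_union, Finset.mem_image] at hs ⊢
    rcases hs with hs | ⟨a, ha, rfl⟩
    · exact Or.inr ⟨s, hs, rfl⟩
    · left; simpa using ha
  have hSA : ∀ s ∈ S, s ∈ A ∨ -s ∈ A := by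
    intro s hs
    simp only [hSdef, Finset.mem_union, Finset.mem_image] at hs
    rcases hs with hs | ⟨a, ha, rfl⟩
    · exact Or.inl (Finset.mem_of_mem_erase hs)
    · right; simpa using Finset.mem_of_mem_erase ha
  have hinj : ∀ k ∈ Icc 1 (H ^ 2 ^ j), ∀ x : G, k • x = 0 → x = 0 := by
    intro k hk x hx
    exact inj_of_primes (H ^ 2 ^ j) (fun q hq1 hq2 => lt_of_lt_of_le hHC (hq q hq1 hq2)) k hk x hx
  obtain ⟨B, hBA, hBd, hBc⟩ := exists_chain C0 δ hC0 hδ.le hdiv j A S hne h0 hSs hSA a0 η J H hη hη1 ha0 hJ hH1 hH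
    hsum hinj
  exact ⟨B, hBA, hBd, by rw [hBc]; exact hfin⟩

theorem exists_set_dimGm {G : Type*} [AddCommGroup G] [Fintype G] (m : ℕ) (hm : m ≤ Fintype.card G) :
    ∃ A : Finset G, A.card = m ∧ dissDim A = dimGm G m := by
  have h1 : ∃ A : Finset G, A.card = m := by
    have : m ≤ (Finset.univ : Finset G).card := by simpa using hm
    obtain ⟨A, _, hA⟩ := Finset.exists_subset_card_eq this
    exact ⟨A, hA⟩
  obtain ⟨A, hA⟩ := h1
  exact Nat.sInf_mem (s := {k | ∃ A : Finset G, A.card = m ∧ dissDim A = k}) ⟨_, A, hA, rfl⟩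

theorem dim_asymp (ε : ℝ) (hε : 0 < ε) :
    ∃ C m₀ : ℕ, ∀ (G : Type*) [AddCommGroup G] [Fintype G] (m : ℕ), m₀ ≤ m → m ≤ Fintype.card G →
      (∀ q : ℕ, q.Prime → q ∣ Fintype.card G → m ^ C ≤ q) →
      (1 - ε) * Real.logb 2 m ≤ dimGm G m ∧ (dimGm G m : ℝ) ≤ (1 + ε) * Real.logb 2 m := by
  classical
  obtain ⟨C, m1, hlow⟩ := lower (min ε (1 / 2)) (by positivity)
    (lt_of_le_of_lt (min_le_right _ _) (by norm_num))
  obtain ⟨m2, hup⟩ := two_pow_le ε hε
  refine ⟨max C 1, max (max m1 m2) 2, ?_⟩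
  intro G _ _ m hm hmG hq
  have hm1 : m1 ≤ m := le_trans (le_trans (le_max_left _ _) (le_max_left _ _)) hm
  have hm2 : m2 ≤ m := le_trans (le_trans (le_max_right _ _) (le_max_left _ _)) hm
  have hm3 : 2 ≤ m := le_trans (le_max_right _ _) hm
  have hlog : 0 ≤ Real.logb 2 m := Real.logb_nonneg (by norm_num) (by exact_mod_cast (by omega : 1 ≤ m))
  constructor
  · obtain ⟨A, hA, hAd⟩ := exists_set_dimGm m hmG
    obtain ⟨B, hBA, hB, hc⟩ := hlow G A (by rw [hA]; exact hm1) (by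
      intro q hq1 hq2
      rw [hA]
      exact le_trans (Nat.pow_le_pow_right (by omega) (le_max_left _ _)) (hq q hq1 hq2))
    have h1 : (B.card : ℝ) ≤ dimGm G m := by
      rw [← hAd]
      exact_mod_cast le_dissDim hBA hB
    have h2 : (1 - ε) * Real.logb 2 m ≤ (1 - min ε (1 / 2)) * Real.logb 2 m := by
      apply mul_le_mul_of_nonneg_right _ hlog
      have := min_le_left ε (1 / 2)
      linarith
    rw [hA] at hc
    linarith
  · have hne : Fintype.card G ≠ 1 := by omega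
    obtain ⟨q, hq1, hq2⟩ := Nat.exists_prime_and_dvd hne
    have hqm : m ≤ q := by
      calc m = m ^ 1 := (pow_one m).symm
        _ ≤ m ^ (max C 1) := Nat.pow_le_pow_right (by omega) (le_max_right _ _)
        _ ≤ q := hq q hq1 hq2
    haveI : Fact q.Prime := ⟨hq1⟩
    obtain ⟨g, hg⟩ := exists_prime_addOrderOf_dvd_card q hq2
    obtain ⟨A, hA, hAB⟩ := upper_set m (by omega) g (by rw [hg]; exact hqm)
    have h1 : dimGm G m ≤ dissDim A := Nat.sInf_le ⟨A, hA, rfl⟩
    obtain ⟨B, hBA, hB, hBc⟩ := exists_dissDim_eq A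
    have h2 : (B.card : ℝ) ≤ (1 + ε) * Real.logb 2 m := by
      rcases hAB B hBA hB with h0 | h0
      · rw [h0]
        simp only [CharP.cast_eq_zero]
        positivity
      · exact hup m B.card hm2 h0
    have h3 : (dimGm G m : ℝ) ≤ B.card := by
      rw [hBc]
      exact_mod_cast h1
    linarith

end DSA
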