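import Pool.Agent.DSA.Bd
import Pool.Agent.DSA.Ch

/-! DSA / Se: choice of a character which hits all windows.

PROOF. Windows `a_i = a0 (2+η)^i`, `b_i = (1+η) a_i`, `i < J`; `b_i - a_i = η a_i ≥ η a0`, `b_i ≤ 1/4` by `hJ`. For `i < J`
let `Bad_i` be the set of all `ψ` with `nm ψ s < a_i ∨ b_i < nm ψ s` for all `s ∈ S`. By `bad_window` (same `H` for all `i`)
`|Bad_i| η a0 (2+η)^i |S|^(1-1/2^j) ≤ 48 C0 H^(jδ) |G| < |G| η a0 |S|^(1-1/2^j) / 2`, so `|Bad_i| < |G| / (2 (2+η)^i)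
≤ |G| / 2^(i+1)` and `∑_{i<J} |Bad_i| < |G| = #(AddChar G ℂ)` (`AddChar.card_eq`; for `J = 0` take `B = ∅`). So some `ψ` is in no
`Bad_i`: for `i < J` there is `s_i ∈ S` with `a_i ≤ nm ψ s_i ≤ b_i`, and by `hSA`, `nm_neg` we may replace it by an element
of `A`. `diss_of_chain`: `∑_{i' < i} nm ≤ ∑_{i'<i} (1+η) a0 (2+η)^{i'} = a0 ((2+η)^i - 1) < a_i ≤ nm ψ s_i`. -/

set_option autoImplicit false

open Finset

namespace DSA

variable {G : Type*} [AddCommGroup G] [Fintype G]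

theorem exists_chain (C0 δ : ℝ) (hC0 : 1 ≤ C0) (hδ : 0 ≤ δ)
    (hd : ∀ n : ℕ, 1 ≤ n → (n.divisors.card : ℝ) ≤ C0 * (n : ℝ) ^ δ) (j : ℕ)
    (A S : Finset G) (hne : S.Nonempty) (h0 : (0 : G) ∉ S) (hS : ∀ s ∈ S, -s ∈ S)
    (hSA : ∀ s ∈ S, s ∈ A ∨ -s ∈ A) (a0 η : ℝ) (J H : ℕ) (hη : 0 < η) (hη1 : η ≤ 1) (ha0 : 0 < a0)
    (hJ : (1 + η) * a0 * (2 + η) ^ (J - 1) ≤ 1 / 4) (hH1 : 1 ≤ H) (hH : 8 ≤ (H + 1) * (η * a0) ^ 2)
    (hsum : 96 * C0 * (H : ℝ) ^ (j * δ) < η * a0 * (S.card : ℝ) ^ (1 - 1 / (2 : ℝ) ^ j))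
    (hinj : ∀ k ∈ Icc 1 (H ^ 2 ^ j), ∀ x : G, k • x = 0 → x = 0) :
    ∃ B : Finset G, B ⊆ A ∧ Pool.Agent.Helper81.Dissoc.Dissociated B ∧ B.card = J := by
  classical
  have hcG : (0 : ℝ) < (Fintype.card G : ℝ) := by
    have : 0 < Fintype.card G := Fintype.card_pos
    exact_mod_cast this
  have hcS : (0 : ℝ) < (S.card : ℝ) := by
    have := hne.card_pos
    exact_mod_cast this
  have hpow1 : ∀ i : ℕ, (1 : ℝ) ≤ (2 + η) ^ i := fun i => one_le_pow₀ (by linarith)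
  have hb : ∀ i < J, (1 + η) * (a0 * (2 + η) ^ i) ≤ 1 / 4 := by
    intro i hi
    refine le_trans ?_ hJ
    rw [mul_assoc]
    refine mul_le_mul_of_nonneg_left (mul_le_mul_of_nonneg_left ?_ ha0.le) (by linarith)
    exact pow_le_pow_right₀ (by linarith) (by omega)
  obtain ⟨Bad, hBad⟩ : ∃ Bad : ℕ → Finset (AddChar G ℂ), ∀ i ψ, ψ ∈ Bad i ↔
      ∀ s ∈ S, nm ψ s < a0 * (2 + η) ^ i ∨ (1 + η) * (a0 * (2 + η) ^ i) < nm ψ s :=
    ⟨fun i => univ.filter fun ψ => ∀ s ∈ S, nm ψ s < a0 * (2 + η) ^ i ∨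
      (1 + η) * (a0 * (2 + η) ^ i) < nm ψ s, fun i ψ => by rw [mem_filter]; simp⟩
  have hcard : ∀ i < J, ((Bad i).card : ℝ) ≤ Fintype.card G * (1 / 2 : ℝ) ^ (i + 1) := by
    intro i hi
    have hai : 0 < a0 * (2 + η) ^ i := mul_pos ha0 (by positivity)
    have h1 := bad_window C0 δ hC0 hδ hd j S hne h0 hS (a0 * (2 + η) ^ i)
      ((1 + η) * (a0 * (2 + η) ^ i)) hai (by nlinarith) (hb i hi) H hH1 (by
        refine hH.trans (mul_le_mul_of_nonneg_left ?_ (by positivity))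
        have h2 : (1 + η) * (a0 * (2 + η) ^ i) - a0 * (2 + η) ^ i = (η * a0) * (2 + η) ^ i := by
          ring
        rw [h2]
        refine pow_le_pow_left₀ (by positivity) ?_ 2
        exact le_mul_of_one_le_right (by positivity) (hpow1 i)) hinj (Bad i)
      (fun ψ hψ => (hBad i ψ).1 hψ)
    have h2 : (1 + η) * (a0 * (2 + η) ^ i) - a0 * (2 + η) ^ i = (η * a0) * (2 + η) ^ i := by
      ring
    rw [h2] at h1
    have hE : 0 < (S.card : ℝ) ^ (1 - 1 / (2 : ℝ) ^ j) := Real.rpow_pos_of_pos hcS _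
    have h3 : 48 * C0 * (H : ℝ) ^ (j * δ) * Fintype.card G ≤
        η * a0 * (S.card : ℝ) ^ (1 - 1 / (2 : ℝ) ^ j) / 2 * Fintype.card G :=
      mul_le_mul_of_nonneg_right (by linarith) hcG.le
    have hK : 0 < η * a0 * (S.card : ℝ) ^ (1 - 1 / (2 : ℝ) ^ j) := by positivity
    have h4 : (η * a0 * (S.card : ℝ) ^ (1 - 1 / (2 : ℝ) ^ j)) * (((Bad i).card : ℝ) * (2 + η) ^ i) ≤
        (η * a0 * (S.card : ℝ) ^ (1 - 1 / (2 : ℝ) ^ j)) * (Fintype.card G / 2) := by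
      calc (η * a0 * (S.card : ℝ) ^ (1 - 1 / (2 : ℝ) ^ j)) * (((Bad i).card : ℝ) * (2 + η) ^ i)
          = ((Bad i).card : ℝ) * ((η * a0) * (2 + η) ^ i) * (S.card : ℝ) ^ (1 - 1 / (2 : ℝ) ^ j) := by
            ring
        _ ≤ _ := h1.trans h3
        _ = _ := by ring
    have h5 : ((Bad i).card : ℝ) * (2 + η) ^ i ≤ Fintype.card G / 2 := le_of_mul_le_mul_left h4 hK
    have h6 : (2 : ℝ) ^ i ≤ (2 + η) ^ i := pow_le_pow_left₀ (by norm_num) (by linarith) i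
    have h7 : ((Bad i).card : ℝ) * 2 ^ i ≤ Fintype.card G / 2 :=
      (mul_le_mul_of_nonneg_left h6 (by positivity)).trans h5
    have h8 : (Fintype.card G : ℝ) * (1 / 2 : ℝ) ^ (i + 1) = Fintype.card G / 2 / 2 ^ i := by
      rw [one_div, inv_pow, pow_succ]
      field_simp
    rw [h8, le_div_iff₀ (by positivity)]
    exact h7
  have hsum2 : ((∑ i ∈ range J, (Bad i).card : ℕ) : ℝ) < Fintype.card G := by
    push_cast
    have h1 : ∑ i ∈ range J, ((Bad i).card : ℝ) ≤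
        ∑ i ∈ range J, (Fintype.card G : ℝ) * (1 / 2 : ℝ) ^ (i + 1) :=
      sum_le_sum fun i hi => hcard i (mem_range.1 hi)
    have h2 : ∀ K : ℕ, ∑ i ∈ range K, (Fintype.card G : ℝ) * (1 / 2 : ℝ) ^ (i + 1) =
        Fintype.card G * (1 - (1 / 2 : ℝ) ^ K) := by
      intro K
      induction K with
      | zero => simp
      | succ K ih =>
        rw [sum_range_succ, ih]
        ring
    rw [h2 J] at h1
    have h3 : (0 : ℝ) < (1 / 2 : ℝ) ^ J := by positivity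
    nlinarith
  have hex : ∃ ψ : AddChar G ℂ, ψ ∉ (range J).biUnion Bad := by
    by_contra hall
    push Not at hall
    have h1 : (univ : Finset (AddChar G ℂ)) ⊆ (range J).biUnion Bad := fun ψ _ => hall ψ
    have h2 := (card_le_card h1).trans card_biUnion_le
    rw [card_univ, ← Nat.card_eq_fintype_card] at h2
    have h3 : Nat.card (AddChar G ℂ) = Fintype.card G := by
      rw [Nat.card_eq_fintype_card, AddChar.card_eq]
    rw [h3] at h2
    have h4 : (Fintype.card G : ℝ) ≤ ((∑ i ∈ range J, (Bad i).card : ℕ) : ℝ) := by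
      exact_mod_cast h2
    linarith
  obtain ⟨ψ, hψ⟩ := hex
  have hsel : ∀ i, ∃ x : G, i < J → x ∈ A ∧ a0 * (2 + η) ^ i ≤ nm ψ x ∧
      nm ψ x ≤ (1 + η) * (a0 * (2 + η) ^ i) := by
    intro i
    by_cases hi : i < J
    swap
    · exact ⟨0, fun h => absurd h hi⟩
    have h1 : ψ ∉ Bad i := fun hc => hψ (mem_biUnion.2 ⟨i, mem_range.2 hi, hc⟩)
    rw [hBad i ψ] at h1
    push Not at h1
    obtain ⟨s, hs, h2, h3⟩ := h1
    rcases hSA s hs with h4 | h4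
    · exact ⟨s, fun _ => ⟨h4, h2, h3⟩⟩
    · exact ⟨-s, fun _ => ⟨h4, by rw [nm_neg]; exact h2, by rw [nm_neg]; exact h3⟩⟩
  choose s hs using hsel
  obtain ⟨B, hB1, hB2, hB3⟩ := diss_of_chain ψ J s (fun i hi => (hs i hi).2.2.trans (hb i hi))
    (fun i hi => by
      have h1 : ∑ i' ∈ range i, nm ψ (s i') ≤ ∑ i' ∈ range i, (1 + η) * (a0 * (2 + η) ^ i') :=
        sum_le_sum fun i' hi' => (hs i' ((mem_range.1 hi').trans hi)).2.2
      have h2 : ∑ i' ∈ range i, (1 + η) * (a0 * (2 + η) ^ i') = a0 * ((2 + η) ^ i - 1) := by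
        have h3 := geom_sum_mul (2 + η) i
        have h4 : 2 + η - 1 = 1 + η := by ring
        rw [h4] at h3
        rw [← h3, ← mul_sum, ← mul_sum]
        ring
      rw [h2] at h1
      refine lt_of_le_of_lt h1 (lt_of_lt_of_le ?_ (hs i hi).2.1)
      nlinarith)
  refine ⟨B, fun x hx => ?_, hB3, hB1⟩
  obtain ⟨i, hi, rfl⟩ := hB2 x hx
  exact (hs i hi).1

end DSA
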